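import Pool.Agent.W761.Box.Clos

/-!
# Closure of the class of good functions for box averages, with majorants
(adapted from `Pool/Agent/W761/Box/Clos.lean` and `Pool/Agent/TH635/FB/Clos.lean`)
-/

set_option autoImplicit false

open Filter Topology MeasureTheory

noncomputable section

namespace Pool.Agent.TH635.AA

open Pool.Agent.W761.Box

variable {X : Type*} [MeasurableSpace X] {J : Type*} [Fintype J] [DecidableEq J] {k : ℕ}

/-- Bounded functions. -/
def Bd (f : X → ℂ) : Prop := ∃ C : ℝ, ∀ x, ‖f x‖ ≤ C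

/-- convergence of the averages of one real function -/
def Cr (μ : Measure X) (g : (Fin k → ℕ) → X → X) (K : X → ℝ) : Prop :=
  ∀ᵐ x ∂μ, ∃ L : ℝ, Tendsto (fun N => bx k N fun m => K (g m x)) atTop (𝓝 L)

omit [MeasurableSpace X] in
/-- a bound for the other factors -/
theorem exists_D {g : J → (Fin k → ℕ) → X → X} {F : J → X → ℂ} (hF : ∀ l, Bd (F l)) (j : J) :
    ∃ D : ℝ, 0 < D ∧ ∀ (m : Fin k → ℕ) (x : X),
      ‖∏ l ∈ Finset.univ.erase j, F l (g l m x)‖ ≤ D := by
  choose CF hCF using hF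
  refine ⟨∏ l ∈ Finset.univ.erase j, (|CF l| + 1), Finset.prod_pos fun l _ => by positivity, ?_⟩
  intro n x
  rw [norm_prod]
  apply Finset.prod_le_prod (fun l _ => norm_nonneg _)
  intro l _
  exact ((hCF l _).trans (le_abs_self _)).trans (by linarith)

/-- The class of good functions is closed under limits in `L¹`, as soon as the averages of a
majorant of the error converge. -/
theorem Cv_closed' {μ : Measure X} [IsProbabilityMeasure μ] {g : J → (Fin k → ℕ) → X → X}
    {F : J → X → ℂ} (hF : ∀ l, Bd (F l)) {j : J}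
    (hg : ∀ m, MeasurePreserving (g j m) μ μ) {f : X → ℂ}
    (h : ∀ ε : ℝ, 0 < ε → ∃ (f' : X → ℂ) (K : X → ℝ), Measurable K ∧ (∃ C, ∀ x, |K x| ≤ C) ∧
      (∀ x, 0 ≤ K x) ∧ (∀ᵐ x ∂μ, ‖f x - f' x‖ ≤ K x) ∧ ∫ x, K x ∂μ ≤ ε ∧
      Cr μ (g j) K ∧ Cv μ g (Function.update F j f')) :
    Cv μ g (Function.update F j f) := by
  obtain ⟨D, hD0, hD⟩ := exists_D (g := g) hF j
  have hbad : ∀ δ : ℝ, 0 < δ → ∀ᵐ x ∂μ, ∃ N₀ : Fin k → ℕ, ∀ N, N₀ ≤ N → ∀ M, N₀ ≤ M →
      ‖bxc k N (fun m => ∏ l, (Function.update F j f) l (g l m x)) -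
        bxc k M (fun m => ∏ l, (Function.update F j f) l (g l m x))‖ ≤ δ := by
    intro δ hδ
    rw [ae_iff, ← nonpos_iff_eq_zero]
    apply ENNReal.le_of_forall_pos_le_add
    intro ε hε _
    rw [zero_add]
    have hε' : (0 : ℝ) < ε := by exact_mod_cast hε
    obtain ⟨f', K, hKm, ⟨CK, hKb⟩, hK0, hKf, hfg, hB, hcv⟩ := h (ε * (δ / (4 * D))) (by positivity)
    let E : X → ℝ := fun x => limUnder atTop (fun N => bx k N fun m => K (g j m x))
    have hE : ∀ᵐ x ∂μ, Tendsto (fun N => bx k N fun m => K (g j m x)) atTop (𝓝 (E x)) := by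
      filter_upwards [hB] with x hx
      exact tendsto_nhds_limUnder hx
    have hKb' : ∀ x, |K x| ≤ |CK| := fun x => (hKb x).trans (le_abs_self _)
    obtain ⟨hE0, hEi, hEint⟩ := int_lim_le' hg hKm (abs_nonneg CK) hKb' hK0 hE
    have hmark := mul_meas_ge_le_integral_of_nonneg hE0 hEi (δ / (4 * D))
    have hmark' : μ.real {x | δ / (4 * D) ≤ E x} ≤ ε := by
      have h1 : δ / (4 * D) * μ.real {x | δ / (4 * D) ≤ E x} ≤ δ / (4 * D) * ε := by
        refine hmark.trans ((hEint.trans hfg).trans ?_)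
        rw [mul_comm]
      exact le_of_mul_le_mul_left h1 (by positivity)
    have hKg : ∀ᵐ x ∂μ, ∀ m, ‖f (g j m x) - f' (g j m x)‖ ≤ K (g j m x) := by
      rw [ae_all_iff]
      intro m
      exact (hg m).quasiMeasurePreserving.ae hKf
    have hsub : ∀ᵐ x ∂μ, x ∈ {x | ¬ ∃ N₀ : Fin k → ℕ, ∀ N, N₀ ≤ N → ∀ M, N₀ ≤ M →
        ‖bxc k N (fun m => ∏ l, (Function.update F j f) l (g l m x)) -
          bxc k M (fun m => ∏ l, (Function.update F j f) l (g l m x))‖ ≤ δ} →
          x ∈ {x | δ / (4 * D) ≤ E x} := by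
      filter_upwards [hE, hcv, hKg] with x hx1 hx2 hxK hx3
      show δ / (4 * D) ≤ E x
      by_contra hcon
      rw [not_le] at hcon
      apply hx3
      obtain ⟨L, hL⟩ := hx2
      have h2 := (tendsto_order.mp hx1).2 _ hcon
      obtain ⟨N₁, hN₁⟩ := eventually_atTop.mp h2
      obtain ⟨N₂, hN₂⟩ := Metric.tendsto_atTop.mp hL (δ / 4) (by positivity)
      have hclose : ∀ N, N₁ ≤ N → ‖bxc k N (fun m => ∏ l, (Function.update F j f) l (g l m x)) -
          bxc k N (fun m => ∏ l, (Function.update F j f') l (g l m x))‖ ≤ δ / 4 := by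
        intro N hN
        rw [← bxc_sub]
        refine (bxc_norm _ _ _).trans ?_
        have h3 : ∀ m, ‖∏ l, (Function.update F j f) l (g l m x) -
            ∏ l, (Function.update F j f') l (g l m x)‖ ≤ D * K (g j m x) := by
          intro m
          rw [prod_update, prod_update, ← sub_mul, norm_mul, mul_comm]
          exact mul_le_mul (hD _ x) (hxK m) (norm_nonneg _) hD0.le
        refine (bx_mono h3).trans ?_
        rw [bx_mul]
        calc D * bx k N (fun m => K (g j m x)) ≤ D * (δ / (4 * D)) :=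
              mul_le_mul_of_nonneg_left (hN₁ N hN).le hD0.le
          _ = δ / 4 := by field_simp
      refine ⟨N₁ ⊔ N₂, fun N hN M hM => ?_⟩
      have a1 := hclose N (le_sup_left.trans hN)
      have a2 := hclose M (le_sup_left.trans hM)
      have a3 := hN₂ N (le_sup_right.trans hN)
      have a4 := hN₂ M (le_sup_right.trans hM)
      rw [dist_eq_norm] at a3 a4
      set u := bxc k N (fun m => ∏ l, (Function.update F j f) l (g l m x))
      set u' := bxc k N (fun m => ∏ l, (Function.update F j f') l (g l m x))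
      set w := bxc k M (fun m => ∏ l, (Function.update F j f) l (g l m x))
      set w' := bxc k M (fun m => ∏ l, (Function.update F j f') l (g l m x))
      have e1 : u - w = (u - u') + (u' - L) - (w' - L) - (w - w') := by ring
      rw [e1]
      have b1 := norm_sub_le ((u - u') + (u' - L) - (w' - L)) (w - w')
      have b2 := norm_sub_le ((u - u') + (u' - L)) (w' - L)
      have b3 := norm_add_le (u - u') (u' - L)
      linarith
    have h10 : μ {x | ¬ ∃ N₀ : Fin k → ℕ, ∀ N, N₀ ≤ N → ∀ M, N₀ ≤ M →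
        ‖bxc k N (fun m => ∏ l, (Function.update F j f) l (g l m x)) -
          bxc k M (fun m => ∏ l, (Function.update F j f) l (g l m x))‖ ≤ δ} ≤
        μ {x | δ / (4 * D) ≤ E x} := measure_mono_ae hsub
    refine h10.trans ?_
    have h9 : μ {x | δ / (4 * D) ≤ E x} = ENNReal.ofReal (μ.real {x | δ / (4 * D) ≤ E x}) := by
      rw [measureReal_def, ENNReal.ofReal_toReal (measure_ne_top _ _)]
    rw [h9]
    calc ENNReal.ofReal (μ.real {x | δ / (4 * D) ≤ E x}) ≤ ENNReal.ofReal (ε : ℝ) :=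
          ENNReal.ofReal_le_ofReal hmark'
      _ = ε := ENNReal.ofReal_coe_nnreal
  have hall := ae_all_iff.mpr fun i : ℕ => hbad (1 / ((i : ℝ) + 1)) (by positivity)
  filter_upwards [hall] with x hx
  apply cauchySeq_tendsto_of_complete
  rw [Metric.cauchySeq_iff']
  intro ε hε
  obtain ⟨i, hi⟩ := exists_nat_one_div_lt hε
  obtain ⟨N₀, hN₀⟩ := hx i
  refine ⟨N₀, fun n hn => ?_⟩
  rw [dist_eq_norm]
  exact (hN₀ n hn N₀ le_rfl).trans_lt hi

/-- averages of a constant -/
theorem Cr_const {μ : Measure X} {g : (Fin k → ℕ) → X → X} (c : ℝ) :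
    Cr μ g (fun _ => c) := by
  refine Eventually.of_forall fun x => ⟨c, ?_⟩
  apply tendsto_const_nhds.congr'
  filter_upwards [eventually_ge_atTop (fun _ : Fin k => 1)] with N hN
  unfold bx
  rw [Finset.sum_const, Fintype.card_piFinset]
  simp only [Finset.card_range, nsmul_eq_mul]
  rw [← mul_assoc]
  have h : (∏ j, (N j : ℝ))⁻¹ * ((∏ j, N j : ℕ) : ℝ) = 1 := by
    push_cast
    apply inv_mul_cancel₀
    rw [Finset.prod_ne_zero_iff]
    intro j _
    have := hN j
    simp only at this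
    have h2 : (0 : ℝ) < N j := by exact_mod_cast this
    exact h2.ne'
  rw [h, one_mul]

end Pool.Agent.TH635.AA
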