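import Pool.Agent.TH635.AA.BClos

set_option autoImplicit false
set_option maxHeartbeats 200000

open Filter Topology MeasureTheory

noncomputable section

namespace Pool.Agent.TH635.AA

open Pool.Agent.W761.Box

variable {X : Type*} [MeasurableSpace X] {J : Type*} [Fintype J] [DecidableEq J] {k : ℕ}

/-- The class of good functions is closed under limits in `L¹`. -/
theorem Cv_closed1 {μ : Measure X} [IsProbabilityMeasure μ] {g : J → (Fin k → ℕ) → X → X}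
    {F : J → X → ℂ} (hF : ∀ l, Bd (F l)) {j : J}
    (hg : ∀ m, MeasurePreserving (g j m) μ μ) (hgood : Good1 μ (g j)) {f : X → ℂ}
    (hf : BM f)
    (h : ∀ ε : ℝ, 0 < ε → ∃ f' : X → ℂ, BM f' ∧ ∫ x, ‖f x - f' x‖ ∂μ ≤ ε ∧
      Cv μ g (Function.update F j f')) :
    Cv μ g (Function.update F j f) := by
  obtain ⟨hfm, Cf, hCf⟩ := hf
  refine Cv_closed' hF hg ?_
  intro ε hε
  obtain ⟨f', ⟨hgm, Cg, hCg⟩, hfg, hcv⟩ := h ε hε
  have hKm : Measurable fun x => ‖f x - f' x‖ := (hfm.sub hgm).norm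
  have hKb : ∀ x, |‖f x - f' x‖| ≤ |Cf + Cg| := fun x => by
    rw [abs_of_nonneg (norm_nonneg _)]
    exact ((norm_sub_le _ _).trans (add_le_add (hCf x) (hCg x))).trans (le_abs_self _)
  have hKb' : ∃ C, ∀ x, |(fun x => ‖f x - f' x‖) x| ≤ C := ⟨|Cf + Cg|, hKb⟩
  have h1 := hgood (fun x => ‖f x - f' x‖) hKm hKb'
  have h2 : ∀ x, 0 ≤ ‖f x - f' x‖ := fun x => norm_nonneg _
  have h3 : ∀ᵐ x ∂μ, ‖f x - f' x‖ ≤ ‖f x - f' x‖ := Eventually.of_forall fun x => le_refl _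
  exact ⟨f', fun x => ‖f x - f' x‖, hKm, hKb', h2, h3, hfg, h1, hcv⟩

/-- uniform limits -/
theorem Cv_closed_sup {μ : Measure X} [IsProbabilityMeasure μ] {g : J → (Fin k → ℕ) → X → X}
    {F : J → X → ℂ} (hF : ∀ l, Bd (F l)) {j : J}
    (hg : ∀ m, MeasurePreserving (g j m) μ μ) {f : X → ℂ}
    (h : ∀ ε : ℝ, 0 < ε → ∃ f' : X → ℂ, (∀ x, ‖f x - f' x‖ ≤ ε) ∧
      Cv μ g (Function.update F j f')) :
    Cv μ g (Function.update F j f) := by
  refine Cv_closed' hF hg ?_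
  intro ε hε
  obtain ⟨f', h1, h2⟩ := h ε hε
  have h3 : ∫ _x, ε ∂μ ≤ ε := by simp
  exact ⟨f', fun _ => ε, measurable_const, ⟨|ε|, fun _ => le_refl _⟩, fun _ => hε.le,
    Eventually.of_forall h1, h3, Cr_const ε, h2⟩

end Pool.Agent.TH635.AA
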