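import Pool.Agent.TH635.AA.Fix
import Pool.Agent.TH784.AA.Fin

/-!
# Convergence for products of characters along affine actions with polynomial exponents
(adapted from `Pool/Agent/TH784/AA/ConvA.lean`)
-/

set_option autoImplicit false
set_option linter.unusedSectionVars false

open Filter Topology MeasureTheory
open scoped ComplexConjugate

namespace Pool.Agent.TH635.AA

open Pool.Agent.TH784.AA
open Pool.Agent.W742.CU (IsPoly Dv UM Per)
open Pool.Agent.W761.Box (bxc)
open Pool.Agent.H767R2 (ev_add ev_zero norm_ev)

noncomputable section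

variable {k : ℕ}

theorem ind_mixz {α : Type*} {D : Finset (Fin k)} {b : (Fin k → ℤ) → α}
    (h : ∀ l ∉ D, ∀ (m : Fin k → ℤ) (t : ℤ), b (Function.update m l t) = b m)
    (n m : Fin k → ℤ) : b (mix D n m) = b n := by
  classical
  have key : ∀ T : Finset (Fin k), (∀ l ∈ T, l ∉ D) → b (fun j => if j ∈ T then m j else n j) =
      b n := by
    intro T
    induction T using Finset.induction_on with
    | empty =>
      intro _
      simp
    | insert l T hl ih =>
      intro hT
      rw [← ih fun l' hl' => hT l' (Finset.mem_insert_of_mem hl')]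
      have e1 : (fun j => if j ∈ insert l T then m j else n j) =
          Function.update (fun j => if j ∈ T then m j else n j) l (m l) := by
        funext j
        by_cases hj : j = l
        · subst hj
          rw [Function.update_self, if_pos (Finset.mem_insert_self _ _)]
        · rw [Function.update_of_ne hj]
          simp only [Finset.mem_insert, hj, false_or]
      rw [e1, h l (hT l (Finset.mem_insert_self _ _))]
  have h1 := key (Finset.univ.filter fun l => l ∉ D) (fun l hl => (Finset.mem_filter.1 hl).2)
  rw [← h1]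
  congr 1
  funext j
  unfold mix
  by_cases hj : j ∈ D
  · rw [if_pos hj, if_neg]
    rw [Finset.mem_filter]
    rintro ⟨_, h2⟩
    exact h2 hj
  · rw [if_neg hj, if_pos]
    rw [Finset.mem_filter]
    exact ⟨Finset.mem_univ _, hj⟩

section

variable {X : Type*} [CommGroup X] [TopologicalSpace X] [IsTopologicalGroup X] [CompactSpace X]
  [MeasurableSpace X] [BorelSpace X] {μ : Measure X} [IsProbabilityMeasure μ]
  [μ.IsMulLeftInvariant]

/-- **Convergence when the dichotomy holds.** -/
theorem conv_gen (F : (Fin k → ℤ) → BB X) (hac : ∀ n, IsAC (F n).toMul)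
    (hdic : ∀ l, AltB l (fun n => QuotientAddGroup.mk' (KK X) (F n)))
    (hpol : ∀ D : Finset (Fin k), (∀ n, F n - F (mix D n 0) ∈ KK X) →
      ∃ d, IsPoly d (fun n => F n - F (mix D n 0))) :
    ∀ᵐ x ∂μ, ∃ L : ℂ, Tendsto (fun N => bxc k N fun n => fb (F (nz n)) x) atTop (𝓝 L) := by
  classical
  set b : (Fin k → ℤ) → BB X ⧸ KK X := fun n => QuotientAddGroup.mk' (KK X) (F n) with hb
  have hFb : ∀ n, QuotientAddGroup.mk' (KK X) (F n) = b n := fun n => rfl
  set D : Finset (Fin k) := Finset.univ.filter fun l =>
    ¬ ∀ (m : Fin k → ℤ) (t : ℤ), b (Function.update m l t) = b m with hD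
  have hDn : ∀ l ∉ D, ∀ (m : Fin k → ℤ) (t : ℤ), b (Function.update m l t) = b m := by
    intro l hl
    by_contra hcon
    exact hl (Finset.mem_filter.2 ⟨Finset.mem_univ _, hcon⟩)
  have hDf : ∀ l ∈ D, FewB l (fun n => b (nz n)) := fun l hl =>
    (hdic l).resolve_left (Finset.mem_filter.1 hl).2
  -- the difference is constant
  have hKn : ∀ n, F n - F (mix D n 0) ∈ KK X := by
    intro n
    apply mk_eq_mk
    rw [hFb, hFb, ind_mixz hDn]
  obtain ⟨d, hpoly0⟩ := hpol D hKn
  -- the phase
  set θ : (Fin k → ℤ) → UnitAddCircle := fun n =>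
    toU (Additive.ofMul ((F n - F (mix D n 0)).toMul 1)) with hθ
  have hpoly : IsPoly d θ := by
    have h1 := hpoly0.map (AddMonoidHom.mk'
      (fun f : BB X => toU (Additive.ofMul (f.toMul 1))) (fun f g => by
        rw [← map_add]
        rfl))
    exact h1
  have hdec : ∀ n x, fb (F n) x = Pool.Agent.H767R2.ev (θ n) * fb (F (mix D n 0)) x := by
    intro n x
    have h1 : Pool.Agent.H767R2.ev (θ n) = fb (F n - F (mix D n 0)) x := by
      rw [hθ]
      simp only
      rw [ev_toU]
      unfold fb
      rw [hKn n x 1]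
      rfl
    rw [h1, ← fb_add, sub_add_cancel]
  by_cases hDe : D = ∅
  · -- constant labels
    obtain ⟨c, hc⟩ := um_poly hpoly
    refine Eventually.of_forall fun x => ⟨c * fb (F 0) x, ?_⟩
    have h1 := (conv_of_um hc).mul_const (fb (F 0) x)
    refine h1.congr fun N => ?_
    have e1 : ∀ n : Fin k → ℕ, fb (F (nz n)) x =
        fb (F 0) x * Pool.Agent.H767R2.ev (θ (nz n)) := by
      intro n
      rw [hdec (nz n) x, mul_comm]
      congr 3
      funext l
      unfold mix
      rw [if_neg (by rw [hDe]; exact Finset.notMem_empty l)]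
    simp only [e1]
    rw [Pool.Agent.W761.Box.bxc_mul, mul_comm]
  have hDne : D.Nonempty := Finset.nonempty_iff_ne_empty.2 hDe
  rcases Pool.Agent.W742.CU.dich _ (two D θ) (two_poly D hpoly) with ⟨Q, hQ, hper⟩ | hum
  swap
  · -- nonperiodic phase
    refine Eventually.of_forall fun x => ⟨0, ?_⟩
    have h1 := mix_zero D hum (H := fun n => fb (F (mix D (nz n) 0)) x)
      (fun n => (norm_fb _ _).le) (fun n m => by
        rw [nz_mix, mix_mix])
    refine h1.congr fun N => ?_
    congr 1
    funext n
    exact (hdec (nz n) x).symm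
  -- periodic phase
  have hθ0 : ∀ n, θ (mix D n 0) = 0 := by
    intro n
    rw [hθ]
    simp only
    rw [mix_mix, sub_self]
    exact map_zero toU
  have htwo : ∀ n : Fin k → ℤ, two D θ (Fin.append n 0) = θ n := by
    intro n
    unfold two
    have e1 : (fun l => (Fin.append n (0 : Fin k → ℤ)) (Fin.castAdd k l)) = n := by
      funext l
      rw [Fin.append_left]
    have e2 : (fun l => (Fin.append n (0 : Fin k → ℤ)) (Fin.natAdd k l)) = 0 := by
      funext l
      rw [Fin.append_right]
    rw [e1, e2, hθ0, sub_zero]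
  have hθper : ∀ n v : Fin k → ℤ, θ (n + Q • v) = θ n := by
    intro n v
    rw [← htwo, ← htwo n]
    have e1 : Fin.append (n + Q • v) (0 : Fin k → ℤ) = Fin.append n 0 + Q • Fin.append v 0 := by
      funext j
      refine Fin.addCases (fun l => ?_) (fun l => ?_) j
      · simp only [Fin.append_left, Pi.add_apply, Pi.smul_apply]
      · simp only [Fin.append_right, Pi.add_apply, Pi.smul_apply, Pi.zero_apply, smul_zero,
          add_zero]
    rw [e1, hper]
  have hres : ∀ᵐ x ∂μ, ∀ r : Fin k → ℕ, (∀ j, r j < Q) → ∃ L : ℂ,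
      Tendsto (fun N => bxc k N (sub r Q fun n => fb (F (nz n)) x)) atTop (𝓝 L) := by
    rw [ae_all_iff]
    intro r
    by_cases hr : ∀ j, r j < Q
    swap
    · exact Eventually.of_forall fun x h => absurd h hr
    have hnzr : ∀ n : Fin k → ℕ, nz (fun j => r j + Q * n j) = nz r + Q • nz n := by
      intro n
      funext l
      simp only [nz, Pi.add_apply, Pi.smul_apply]
      push_cast
      ring
    have h1 := ae_zero (μ := μ) D hDne (sub r Q fun n => b (nz n))
      (fun n x => fb (F (nz fun j => r j + Q * n j)) x)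
      (fun n => fb_meas (hac _)) (fun n x => (norm_fb _ _).le)
      (fun i j hij => fb_orth (hac _) (hac _) (by
        rw [hFb, hFb]
        exact hij))
      (fun l hl n => by
        funext x
        show fb (F (nz _)) x = fb (F (nz _)) x
        rw [hdec, hdec (nz fun j => r j + Q * n j), hnzr, hnzr, hθper, hθper]
        congr 3
        rw [← hnzr, ← hnzr]
        funext l'
        unfold mix
        by_cases hl' : l' ∈ D
        · rw [if_pos hl', if_pos hl']
          have hne : l' ≠ l := fun e => hl (e ▸ hl')
          simp only [nz]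
          rw [Function.update_of_ne hne]
        · rw [if_neg hl', if_neg hl'])
      (fun l hl => (hDf l hl).sub hr)
    filter_upwards [h1] with x hx _
    exact ⟨0, hx⟩
  filter_upwards [hres] with x hx
  exact conv_of_residues hQ hx

variable {A : Type*} [AddCommGroup A] {J : Type} [Fintype J] {Φ : A → Equiv.Perm X}

/-- the action as a structure -/
def actP (hΦ : ∀ a b, Φ (a + b) = Φ a * Φ b) (hΦ0 : Φ 0 = 1) : Act A (BB X) where
  e := fun a => pbk (Φ a : X → X)
  zero := (isAct_pbk hΦ hΦ0).zero
  add := (isAct_pbk hΦ hΦ0).add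

theorem sep_mix {G : Type*} [AddCommGroup G] {n : ℕ} (hn : 1 ≤ n) {f : (Fin k → ℤ) → G}
    (hf : Sep n f) (D : Finset (Fin k)) : Sep n (fun m => f (mix D m 0)) := by
  intro m l
  by_cases hl : l ∈ D
  · have e : (fun t => f (mix D (Function.update m l t) 0)) =
        fun t => f (Function.update (mix D m 0) l t) := by
      funext t
      congr 1
      funext j
      unfold mix
      by_cases hj : j = l
      · subst hj
        rw [if_pos hl, Function.update_self, Function.update_self]
      · rw [Function.update_of_ne hj, Function.update_of_ne hj]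
    rw [e]
    exact hf _ _
  · have e : (fun t => f (mix D (Function.update m l t) 0)) = fun _ => f (mix D m 0) := by
      funext t
      congr 1
      funext j
      unfold mix
      by_cases hj : j ∈ D
      · have : j ≠ l := fun h => hl (h ▸ hj)
        rw [if_pos hj, if_pos hj, Function.update_of_ne this]
      · rw [if_neg hj, if_neg hj]
    rw [e]
    exact Pol_const hn _

theorem cls_mix {B N : Type*} [AddCommGroup B] [AddCommGroup N] {Θ : Act B N} {I D β : ℕ}
    (hβ : 1 ≤ β) {V : (Fin k → ℤ) → N} (h : Cls Θ I D β V) (E : Finset (Fin k)) :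
    Cls Θ I D β (fun m => V (mix E m 0)) := by
  obtain ⟨L, hJ, hL, hV⟩ := h
  refine ⟨L.map fun x => (fun m => x.1 (Pool.Agent.TH784.AA.mix E m 0),
    fun m => x.2 (Pool.Agent.TH784.AA.mix E m 0)), by rwa [List.length_map], ?_, ?_⟩
  · intro y hy
    obtain ⟨x, hx, rfl⟩ := List.mem_map.mp hy
    exact ⟨sep_mix (by omega) (hL x hx).1 E, sep_mix hβ (hL x hx).2 E⟩
  · intro m
    show V (Pool.Agent.TH784.AA.mix E m 0) = _
    rw [hV]
    unfold mev
    rw [List.map_map]
    rfl

/-- **Convergence for affine characters, polynomial exponents.** -/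
theorem conv_osp [AddGroup.FG A] (hΦ : ∀ a b, Φ (a + b) = Φ a * Φ b) (hΦ0 : Φ 0 = 1)
    {D : ℕ} {P : J → (Fin k → ℤ) → A} (hP : ∀ j, IntP D (P j)) (w : J → BB X)
    (hac : ∀ n, IsAC (osp (fun a => pbk (Φ a : X → X)) P w n).toMul) :
    ∀ᵐ x ∂μ, ∃ L : ℂ, Tendsto (fun N => bxc k N fun n =>
      fb (osp (fun a => pbk (Φ a : X → X)) P w (nz n)) x) atTop (𝓝 L) := by
  classical
  have hactB := isAct_pbk hΦ hΦ0
  have hactQ := isAct_qbk hΦ hΦ0
  obtain ⟨q, hq, hdic⟩ := pdic_act hactQ hP (fun j => QuotientAddGroup.mk' (KK X) (w j))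
  have hmk : ∀ n, QuotientAddGroup.mk' (KK X) (osp (fun a => pbk (Φ a : X → X)) P w n) =
      osp (fun a => qbk (Φ a : X → X)) P (fun j => QuotientAddGroup.mk' (KK X) (w j)) n := by
    intro n
    unfold osp
    rw [map_sum]
    exact Finset.sum_congr rfl fun j _ => rfl
  have key : ∀ᵐ x ∂μ, ∀ r : Fin k → ℕ, (∀ j, r j < q) → ∃ L : ℂ,
      Tendsto (fun N => bxc k N (sub r q fun n =>
        fb (osp (fun a => pbk (Φ a : X → X)) P w (nz n)) x)) atTop (𝓝 L) := by
    rw [ae_all_iff]
    intro r
    by_cases hr : ∀ j, r j < q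
    swap
    · exact Eventually.of_forall fun x h => absurd h hr
    have h1 := conv_gen (μ := μ) (subz r q (osp (fun a => pbk (Φ a : X → X)) P w))
      (fun n => hac _) (fun l => by
        have h2 := hdic r hr l
        have e : subz r q (osp (fun a => qbk (Φ a : X → X)) P
            (fun j => QuotientAddGroup.mk' (KK X) (w j))) = fun n =>
            QuotientAddGroup.mk' (KK X) (subz r q (osp (fun a => pbk (Φ a : X → X)) P w) n) := by
          funext n
          unfold subz
          rw [hmk]
        rw [e] at h2
        exact h2) (fun E hE => by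
        -- polynomiality
        choose P' hP' hPP' using fun j => hP j q (fun i => (r i : ℤ))
        have hcls : Cls (actP hΦ hΦ0) (Finset.univ : Finset J).card D 1
            (subz r q (osp (fun a => pbk (Φ a : X → X)) P w)) := by
          have h3 := cls_sum (Φ := actP hΦ hΦ0) (Finset.univ : Finset J) (D := D) (β := 1)
            (fun j m => P j (fun i => (r i : ℤ)) + q • P' j m) (fun j _ => w j)
            (fun j m l => Pol_add (Pol_const (by omega) _)
              (Pol_hom (nsmulAddMonoidHom q) (hP' j m l)))
            (fun j m l => Pol_const le_rfl _)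
          have e : (fun m => ∑ j, (actP hΦ hΦ0).e (P j (fun i => (r i : ℤ)) + q • P' j m) (w j)) =
              subz r q (osp (fun a => pbk (Φ a : X → X)) P w) := by
            funext m
            unfold subz osp
            apply Finset.sum_congr rfl
            intro j _
            rw [hPP']
            rfl
          rw [e] at h3
          exact h3
        exact fix_cls (K := KK X) (fun a x hx => pbk_KK _ hx) (hcls.sub (cls_mix le_rfl hcls E)) hE)
    filter_upwards [h1] with x hx _
    obtain ⟨L, hL⟩ := hx
    refine ⟨L, hL.congr fun N => ?_⟩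
    congr 1
  filter_upwards [key] with x hx
  exact conv_of_residues hq hx

end

end

end Pool.Agent.TH635.AA
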