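import Pool.Agent.TH635.AA.Mod
import Pool.Agent.TH784.AA.Grp

/-!
# The dichotomy for orbit sums with polynomial exponents
-/

set_option autoImplicit false

namespace Pool.Agent.TH635.AA

open Pool.Agent.TH784.AA (cnt vol bxs nz FewB Copr Few irr_copr few_mkQ fewB_of_few IsAct sub
  cnt_mono cnt_eq_sum vol_nonneg)

noncomputable section

variable {k : ℕ}

/-- restriction to a residue class -/
def subz {α : Type*} (r : Fin k → ℕ) (q : ℕ) (a : (Fin k → ℤ) → α) : (Fin k → ℤ) → α :=
  fun m => a (fun j => (r j : ℤ) + q * m j)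

theorem subz_nz {α : Type*} (r : Fin k → ℕ) (q : ℕ) (a : (Fin k → ℤ) → α) :
    (fun n => subz r q a (nz n)) = sub r q (fun n => a (nz n)) := by
  funext n
  unfold subz sub
  congr 1

theorem subz_subz {α : Type*} (r r' : Fin k → ℕ) (q q' : ℕ) (a : (Fin k → ℤ) → α) :
    subz r' q' (subz r q a) = subz (fun j => r j + q * r' j) (q * q') a := by
  funext m
  unfold subz
  congr 1
  funext j
  push_cast
  ring

variable {R M : Type*} [CommRing R] [AddCommGroup M] [Module R M]

/-- the alternative on a residue class -/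
def Alt (L : Submodule R M) (l : Fin k) (a : (Fin k → ℤ) → M) : Prop :=
  (∀ (m : Fin k → ℤ) (t : ℤ), a (Function.update m l t) - a m ∈ L) ∨ Few L l (fun n => a (nz n))

/-- the dichotomy -/
def DicZ (L : Submodule R M) (l : Fin k) (a : (Fin k → ℤ) → M) : Prop :=
  ∃ q : ℕ, 1 ≤ q ∧ ∀ r : Fin k → ℕ, (∀ j, r j < q) → Alt L l (subz r q a)

theorem dicZ_refine {L : Submodule R M} {l : Fin k} {a : (Fin k → ℤ) → M} {q q' : ℕ}
    (hq : 1 ≤ q) (h : ∀ r : Fin k → ℕ, (∀ j, r j < q) → Alt L l (subz r q a))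
    (r : Fin k → ℕ) (hr : ∀ j, r j < q * q') : Alt L l (subz r (q * q') a) := by
  have e : subz r (q * q') a = subz (fun j => r j / q) q' (subz (fun j => r j % q) q a) := by
    rw [subz_subz]
    congr 1
    funext j
    exact (Nat.mod_add_div _ _).symm
  rw [e]
  have h1 : ∀ j, r j / q < q' := fun j => Nat.div_lt_of_lt_mul (hr j)
  rcases h (fun j => r j % q) (fun j => Nat.mod_lt _ hq) with h2 | h2
  · left
    intro m t
    have h3 := h2 (fun j => ((r j / q : ℕ) : ℤ) + q' * m j) (((r l / q : ℕ) : ℤ) + q' * t)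
    have e2 : (fun j => ((r j / q : ℕ) : ℤ) + q' * Function.update m l t j) =
        Function.update (fun j => ((r j / q : ℕ) : ℤ) + q' * m j) l
          (((r l / q : ℕ) : ℤ) + q' * t) := by
      funext j
      by_cases hj : j = l
      · subst hj
        rw [Function.update_self, Function.update_self]
      · rw [Function.update_of_ne hj, Function.update_of_ne hj]
    rw [← e2] at h3
    exact h3
  · right
    rw [subz_nz]
    exact h2.sub h1

theorem DicZ.inf {L₁ L₂ : Submodule R M} {l : Fin k} {a : (Fin k → ℤ) → M} (h₁ : DicZ L₁ l a)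
    (h₂ : DicZ L₂ l a) : DicZ (L₁ ⊓ L₂) l a := by
  obtain ⟨q₁, hq₁, h₁⟩ := h₁
  obtain ⟨q₂, hq₂, h₂⟩ := h₂
  refine ⟨q₁ * q₂, Nat.mul_pos hq₁ hq₂, fun r hr => ?_⟩
  have h3 := dicZ_refine hq₁ h₁ r hr
  have h4 := dicZ_refine hq₂ h₂ r (fun j => by rw [mul_comm]; exact hr j)
  rw [mul_comm q₂ q₁] at h4
  rcases h3 with h3 | h3
  · rcases h4 with h4 | h4
    · exact Or.inl fun m t => ⟨h3 m t, h4 m t⟩
    · exact Or.inr (h4.mono inf_le_right)
  · exact Or.inr (h3.mono inf_le_left)

theorem few_of_fewB {l : Fin k} {b : (Fin k → ℕ) → M} (h : FewB l b) :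
    Few (⊥ : Submodule R M) l b := by
  obtain ⟨G, C, δ, hC, hδ, h1, h2⟩ := h
  refine ⟨G, C, δ, hC, hδ, fun c N hN => (cnt_mono fun n hn => ⟨hn.1, ?_⟩).trans (h1 c N hN), h2⟩
  exact sub_eq_zero.mp ((Submodule.mem_bot R).mp hn.2)

variable {A : Type*} [AddCommGroup A]

/-- orbit sums -/
def esp {J : Type} [Fintype J] (u : A → R) (P : J → (Fin k → ℤ) → A) (χ : J → M) :
    (Fin k → ℤ) → M := fun m => ∑ j, u (P j m) • χ j

theorem irr_DicZ [AddGroup.FG A] [IsNoetherianRing R] [IsNoetherian R M] {L : Submodule R M}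
    (hL : InfIrred L) {u : A → R} (hu : Ex u) {J : Type} [Fintype J] {D : ℕ}
    {P : J → (Fin k → ℤ) → A} (hP : ∀ j, IntP D (P j)) (χ : J → M) (l : Fin k) :
    DicZ L l (esp u P χ) := by
  obtain ⟨q, hq, key⟩ := copr_dich (k := k) (irr_copr hL) hu
  refine ⟨q, hq, fun r _ => ?_⟩
  have h1 := key J D P hP (fun j => L.mkQ (χ j)) (fun j => (r j : ℤ)) l
  have e : ∀ m : Fin k → ℤ, ∑ j, u (P j (fun i => (r i : ℤ) + q * m i)) • L.mkQ (χ j) =
      L.mkQ (subz r q (esp u P χ) m) := by
    intro m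
    unfold subz esp
    rw [map_sum]
    exact Finset.sum_congr rfl fun j _ => (map_smul _ _ _).symm
  simp only [e] at h1
  rcases h1 with h1 | h1
  · left
    intro m t
    have h2 := h1 m t
    rw [← sub_eq_zero, ← map_sub, Submodule.mkQ_apply, Submodule.Quotient.mk_eq_zero] at h2
    exact h2
  · right
    exact few_mkQ (few_of_fewB h1)

theorem bot_DicZ [AddGroup.FG A] [IsNoetherianRing R] [IsNoetherian R M]
    {u : A → R} (hu : Ex u) {J : Type} [Fintype J] {D : ℕ}
    {P : J → (Fin k → ℤ) → A} (hP : ∀ j, IntP D (P j)) (χ : J → M) (l : Fin k) :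
    DicZ (⊥ : Submodule R M) l (esp u P χ) := by
  classical
  obtain ⟨s, hs, h⟩ := exists_infIrred_decomposition (⊥ : Submodule R M)
  rw [← hs]
  clear hs
  induction s using Finset.induction_on with
  | empty =>
    refine ⟨1, le_rfl, fun r _ => Or.inl fun m t => ?_⟩
    rw [Finset.inf_empty]
    exact Submodule.mem_top
  | insert a s _ ih =>
    rw [Finset.inf_insert]
    exact (irr_DicZ (h (Finset.mem_insert_self _ _)) hu hP χ l).inf
      (ih fun b hb => h (Finset.mem_insert_of_mem hb))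

/-- The dichotomy in all directions. -/
theorem all_DicZ [AddGroup.FG A] [IsNoetherianRing R] [IsNoetherian R M]
    {u : A → R} (hu : Ex u) {J : Type} [Fintype J] {D : ℕ}
    {P : J → (Fin k → ℤ) → A} (hP : ∀ j, IntP D (P j)) (χ : J → M) :
    ∃ q : ℕ, 1 ≤ q ∧ ∀ r : Fin k → ℕ, (∀ j, r j < q) → ∀ l,
      Alt (⊥ : Submodule R M) l (subz r q (esp u P χ)) := by
  classical
  choose q hq h using fun l => bot_DicZ hu hP χ l
  refine ⟨∏ l, q l, Nat.succ_le_of_lt (Finset.prod_pos fun l _ => hq l), fun r hr l => ?_⟩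
  have e : ∏ l, q l = q l * ∏ i ∈ Finset.univ.erase l, q i :=
    (Finset.mul_prod_erase Finset.univ _ (Finset.mem_univ l)).symm
  rw [e]
  refine dicZ_refine (hq l) (h l) r ?_
  rw [← e]
  exact hr

section act

variable {Q : Type*} [AddCommGroup Q] {Ψ : A → Q →+ Q}

/-- orbit sums with polynomial exponents -/
def osp {J : Type} [Fintype J] (Ψ : A → Q →+ Q) (P : J → (Fin k → ℤ) → A) (w : J → Q) :
    (Fin k → ℤ) → Q := fun m => ∑ j, Ψ (P j m) (w j)

/-- the dichotomy for functions on `ℤ ^ k` -/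
def AltB (l : Fin k) (a : (Fin k → ℤ) → Q) : Prop :=
  (∀ (m : Fin k → ℤ) (t : ℤ), a (Function.update m l t) = a m) ∨ FewB l (fun n => a (nz n))

/-- **The dichotomy.** -/
theorem pdic_act [AddGroup.FG A] (h : IsAct Ψ) {J : Type} [Fintype J] {D : ℕ}
    {P : J → (Fin k → ℤ) → A} (hP : ∀ j, IntP D (P j)) (w : J → Q) :
    ∃ q : ℕ, 1 ≤ q ∧ ∀ r : Fin k → ℕ, (∀ j, r j < q) → ∀ l, AltB l (subz r q (osp Ψ P w)) := by
  classical
  let R := MonoidAlgebra ℤ (Multiplicative A)
  let _ : Module R Q := Module.compHom Q h.hom.toRingHom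
  have hfg : Monoid.FG (Multiplicative A) :=
    AddMonoid.fg_iff_mul_fg.1 (AddGroup.fg_iff_addMonoid_fg.1 inferInstance)
  have hft : Algebra.FiniteType ℤ R := MonoidAlgebra.finiteType_of_fg
  have hN : IsNoetherianRing R := Algebra.FiniteType.isNoetherianRing ℤ R
  let M : Submodule R Q := Submodule.span R (Set.range w)
  have hM : IsNoetherian R M := isNoetherian_span_of_finite R (Set.finite_range w)
  let u : A → R := fun a => MonoidAlgebra.of ℤ (Multiplicative A) (Multiplicative.ofAdd a)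
  have hu : Ex u := by
    constructor
    · show MonoidAlgebra.of ℤ (Multiplicative A) (Multiplicative.ofAdd 0) = 1
      rw [ofAdd_zero, map_one]
    · intro a b
      show MonoidAlgebra.of ℤ (Multiplicative A) (Multiplicative.ofAdd (a + b)) = _
      rw [ofAdd_add, map_mul]
  let χ : J → M := fun j => ⟨w j, Submodule.subset_span ⟨j, rfl⟩⟩
  have hsm : ∀ (a : A) (m : Q), u a • m = Ψ a m := fun a m => h.hom_of a m
  obtain ⟨q, hq, key⟩ := all_DicZ hu hP χ
  have hes : ∀ m, ((esp u P χ m : M) : Q) = osp Ψ P w m := by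
    intro m
    unfold esp osp
    rw [Submodule.coe_sum]
    refine Finset.sum_congr rfl fun j _ => ?_
    rw [Submodule.coe_smul]
    exact hsm _ _
  refine ⟨q, hq, fun r hr l => ?_⟩
  rcases key r hr l with h1 | h1
  · left
    intro m t
    have h2 := h1 m t
    rw [Submodule.mem_bot, sub_eq_zero] at h2
    have h3 := congrArg (Subtype.val) h2
    unfold subz at h3 ⊢
    rw [hes, hes] at h3
    exact h3
  · right
    obtain ⟨G, C, δ, hC, hδ, h2, h3⟩ := fewB_of_few h1
    refine ⟨G, C, δ, hC, hδ, fun c N hN => ?_, h3⟩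
    by_cases hc : c ∈ M
    · refine (cnt_mono fun n hn => ⟨hn.1, ?_⟩).trans (h2 ⟨c, hc⟩ N hN)
      apply Subtype.ext
      show ((subz r q (esp u P χ) (nz n) : M) : Q) = c
      exact (hes _).trans hn.2
    · have h4 : cnt N (fun n => n ∈ G ∧ subz r q (osp Ψ P w) (nz n) = c) ≤
          cnt N (fun _ => False) := by
        refine cnt_mono fun n hn => hc ?_
        rw [← hn.2]
        unfold subz
        rw [← hes]
        exact Subtype.coe_prop _
      refine h4.trans ?_
      rw [cnt_eq_sum]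
      simp only [if_false, Finset.sum_const_zero]
      have := vol_nonneg N
      positivity

end act

end

end Pool.Agent.TH635.AA
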