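import Pool.Agent.TH635.AA.Cnv
import Pool.Agent.TH635.AA.BClos2

/-!
# From characters to continuous functions and to products with Riemann integrable functions
-/

set_option autoImplicit false
set_option linter.unusedSectionVars false

open Filter Topology MeasureTheory
open scoped ComplexConjugate

namespace Pool.Agent.TH635.AA

open Pool.Agent.TH784.AA
open Pool.Agent.W761.Box (bxc bx BM Cv Good1 Cv_add Cv_smul Cv_zero)

noncomputable section

universe u

/-- `f` lies between continuous functions with close integrals (almost everywhere). -/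
def RiemInt {X : Type*} [TopologicalSpace X] [MeasurableSpace X] (μ : Measure X) (f : X → ℂ) :
    Prop :=
  ∀ ε : ℝ, 0 < ε → ∃ (u : X → ℂ) (K : X → ℝ), Continuous u ∧ Continuous K ∧
    (∀ᵐ x ∂μ, ‖f x - u x‖ ≤ K x) ∧ ∫ x, K x ∂μ ≤ ε

variable {X : Type u} [CommGroup X] [TopologicalSpace X] [IsTopologicalGroup X] [CompactSpace X]
  [T2Space X] [MeasurableSpace X] [BorelSpace X] {μ : Measure X} [μ.IsHaarMeasure]
  [IsProbabilityMeasure μ]

variable {k : ℕ} {J : Type} [Fintype J] [DecidableEq J] {A : Type*} [AddCommGroup A]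
  [AddGroup.FG A] {Φ : A → Equiv.Perm X}

omit [T2Space X] [DecidableEq J] [AddGroup.FG A] in
theorem osp_ac (haff : ∀ a, IsAff (Φ a : X → X)) (P : J → (Fin k → ℤ) → A)
    (w : J → BB X) (hw : ∀ j, IsAC (w j).toMul) (n : Fin k → ℤ) :
    IsAC (osp (fun a => pbk (Φ a : X → X)) P w n).toMul := by
  classical
  unfold osp
  have key : ∀ s : Finset J, IsAC (∑ j ∈ s, pbk (Φ (P j n) : X → X) (w j)).toMul := by
    intro s
    induction s using Finset.induction_on with
    | empty => exact IsAC.one
    | insert i s hi ih =>
      rw [Finset.sum_insert hi]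
      exact ((hw i).comp (haff _)).mul ih
  exact key Finset.univ

omit [T2Space X] [DecidableEq J] in
/-- Convergence for characters. -/
theorem conv_chiP (hΦ : ∀ a b, Φ (a + b) = Φ a * Φ b) (hΦ0 : Φ 0 = 1)
    (haff : ∀ a, IsAff (Φ a : X → X)) {D : ℕ} {P : J → (Fin k → ℤ) → A}
    (hP : ∀ j, IntP D (P j)) (χ : J → X →ₜ* Circle) :
    Cv μ (fun j (m : Fin k → ℕ) => (Φ (P j (nz m)) : X → X)) (fun j x => (χ j x : ℂ)) := by
  classical
  set w : J → BB X := fun j => Additive.ofMul fun x => χ j x with hw
  have hwac : ∀ j, IsAC (w j).toMul := fun j => ⟨χ j, 1, fun x => (one_mul _).symm⟩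
  have h1 := conv_osp (μ := μ) hΦ hΦ0 hP w (osp_ac haff P w hwac)
  filter_upwards [h1] with x hx
  obtain ⟨L, hL⟩ := hx
  refine ⟨L, hL.congr fun N => ?_⟩
  congr 1
  funext m
  have key : ∀ s : Finset J, fb (∑ j ∈ s, pbk (Φ (P j (nz m)) : X → X) (w j)) x =
      ∏ j ∈ s, (χ j (Φ (P j (nz m)) x) : ℂ) := by
    intro s
    induction s using Finset.induction_on with
    | empty =>
      rw [Finset.sum_empty, Finset.prod_empty]
      exact Circle.coe_one
    | insert i s hi ih =>
      rw [Finset.prod_insert hi, ← ih, Finset.sum_insert hi, fb_add]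
      rfl
  exact key Finset.univ

theorem BM_cont {u : X → ℂ} (hu : Continuous u) : BM u :=
  ⟨hu.measurable, ‖(⟨u, hu⟩ : C(X, ℂ))‖, fun x =>
    ContinuousMap.norm_coe_le_norm (⟨u, hu⟩ : C(X, ℂ)) x⟩

theorem Bd_cont {u : X → ℂ} (hu : Continuous u) : Bd u := (BM_cont hu).2

theorem bdr_cont {u : X → ℝ} (hu : Continuous u) : ∃ C : ℝ, ∀ x, |u x| ≤ C :=
  ⟨‖(⟨u, hu⟩ : C(X, ℝ))‖, fun x => ContinuousMap.norm_coe_le_norm (⟨u, hu⟩ : C(X, ℝ)) x⟩

/-- Convergence for continuous functions. -/
theorem conv_contP (hΦ : ∀ a b, Φ (a + b) = Φ a * Φ b) (hΦ0 : Φ 0 = 1)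
    (haff : ∀ a, IsAff (Φ a : X → X)) {D : ℕ} {P : J → (Fin k → ℤ) → A}
    (hP : ∀ j, IntP D (P j)) {F : J → X → ℂ} (hF : ∀ j, Continuous (F j)) :
    Cv μ (fun j (m : Fin k → ℕ) => (Φ (P j (nz m)) : X → X)) F := by
  classical
  set g : J → (Fin k → ℕ) → X → X := fun j m => (Φ (P j (nz m)) : X → X) with hg
  have key : ∀ (B : Finset J) (F : J → X → ℂ), (∀ j ∈ B, Continuous (F j)) →
      (∀ j ∉ B, ∃ χ : X →ₜ* Circle, F j = fun x => (χ x : ℂ)) → Cv μ g F := by
    intro B
    induction B using Finset.induction_on with
    | empty =>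
      intro F _ h2
      choose χ hχ using fun j => h2 j (Finset.notMem_empty j)
      have h3 := conv_chiP (μ := μ) hΦ hΦ0 haff hP χ
      have e : F = fun j x => (χ j x : ℂ) := funext hχ
      rw [e]
      exact h3
    | insert j B hj ih =>
      intro F h1 h2
      have hBd : ∀ l, Bd (F l) := by
        intro l
        by_cases hl : l ∈ insert j B
        · exact Bd_cont (h1 l hl)
        · obtain ⟨χ, e⟩ := h2 l hl
          rw [e]
          exact (BM_of_TP (chi_mem χ)).2
      have hc : Continuous (F j) := h1 j (Finset.mem_insert_self j B)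
      have hmain : Cv μ g (Function.update F j (F j)) := by
        refine Cv_closed_sup hBd (fun m => (haff _).mp) ?_
        intro ε hε
        obtain ⟨f', hf', _, hff'⟩ := TP_dense (⟨F j, hc⟩ : C(X, ℂ)) hε
        refine ⟨f', hff', ?_⟩
        refine Submodule.span_induction
          (p := fun (f' : X → ℂ) _ => Cv μ g (Function.update F j f')) ?_ ?_ ?_ ?_ hf'
        · rintro _ ⟨χ, rfl⟩
          apply ih
          · intro l hl
            have hlj : l ≠ j := fun e => hj (e ▸ hl)
            rw [Function.update_of_ne hlj]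
            exact h1 l (Finset.mem_insert_of_mem hl)
          · intro l hl
            by_cases hlj : l = j
            · subst hlj
              exact ⟨χ, by rw [Function.update_self]⟩
            · rw [Function.update_of_ne hlj]
              apply h2
              intro hmem'
              rcases Finset.mem_insert.mp hmem' with h5 | h5
              · exact hlj h5
              · exact hl h5
        · exact Cv_zero
        · rintro g₁ g₂ _ _ c₁ c₂
          exact Cv_add c₁ c₂
        · rintro c g₁ _ c₁
          exact Cv_smul c c₁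
      rwa [Function.update_eq_self] at hmain
  exact key Finset.univ F (fun j _ => hF j) fun j hj => absurd (Finset.mem_univ j) hj

/-- one continuous real function -/
theorem Cr_cont (hΦ : ∀ a b, Φ (a + b) = Φ a * Φ b) (hΦ0 : Φ 0 = 1)
    (haff : ∀ a, IsAff (Φ a : X → X)) {D : ℕ} {P : (Fin k → ℤ) → A}
    (hP : IntP D P) {K : X → ℝ} (hK : Continuous K) :
    Cr μ (fun (m : Fin k → ℕ) => (Φ (P (nz m)) : X → X)) K := by
  have h1 := conv_contP (μ := μ) (J := Unit) hΦ hΦ0 haff (P := fun _ => P) (fun _ => hP)
    (F := fun _ x => (K x : ℂ)) (fun _ => Complex.continuous_ofReal.comp hK)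
  filter_upwards [h1] with x hx
  obtain ⟨L, hL⟩ := hx
  refine ⟨L.re, ((Complex.continuous_re.tendsto _).comp hL).congr fun N => ?_⟩
  simp only [Function.comp_apply, bxc, bx, Finset.univ_unique, Finset.prod_singleton]
  have e : (∏ j, (N j : ℂ))⁻¹ = (((∏ j, (N j : ℝ))⁻¹ : ℝ) : ℂ) := by
    push_cast
    rfl
  rw [e, ← Complex.ofReal_sum, ← Complex.ofReal_mul, Complex.ofReal_re]

/-- **Convergence: slots with Riemann integrable functions, or good slots.** -/
theorem conv_slots (hΦ : ∀ a b, Φ (a + b) = Φ a * Φ b) (hΦ0 : Φ 0 = 1)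
    (haff : ∀ a, IsAff (Φ a : X → X)) {D : ℕ} {P : J → (Fin k → ℤ) → A}
    (hP : ∀ j, IntP D (P j)) {F : J → X → ℂ} (hb : ∀ j, Bd (F j))
    (hF : ∀ j, RiemInt μ (F j) ∨
      (Measurable (F j) ∧ Good1 μ (fun (m : Fin k → ℕ) => (Φ (P j (nz m)) : X → X)))) :
    Cv μ (fun j (m : Fin k → ℕ) => (Φ (P j (nz m)) : X → X)) F := by
  classical
  set g : J → (Fin k → ℕ) → X → X := fun j m => (Φ (P j (nz m)) : X → X) with hg
  have hmp : ∀ j m, MeasurePreserving (g j m) μ μ := fun j m => (haff _).mp
  have key : ∀ S : Finset J, ∀ F : J → X → ℂ, (∀ j, Bd (F j)) →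
      (∀ j ∈ S, RiemInt μ (F j) ∨ (Measurable (F j) ∧ Good1 μ (g j))) →
      (∀ j, j ∉ S → Continuous (F j)) → Cv μ g F := by
    intro S
    induction S using Finset.induction_on with
    | empty =>
      intro F _ _ h
      exact conv_contP hΦ hΦ0 haff hP fun j => h j (Finset.notMem_empty j)
    | insert j S hj ih =>
      intro F hb hgd hc
      have hup : ∀ u : X → ℂ, Continuous u → Cv μ g (Function.update F j u) := by
        intro u hu
        apply ih
        · intro l
          by_cases hl : l = j
          · subst hl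
            rw [Function.update_self]
            exact Bd_cont hu
          · rw [Function.update_of_ne hl]
            exact hb l
        · intro l hl
          have hlj : l ≠ j := fun h => hj (h ▸ hl)
          rw [Function.update_of_ne hlj]
          exact hgd l (Finset.mem_insert_of_mem hl)
        · intro l hl
          by_cases hlj : l = j
          · subst hlj
            rw [Function.update_self]
            exact hu
          · rw [Function.update_of_ne hlj]
            exact hc l (by
              rw [Finset.mem_insert]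
              tauto)
      have hmain : Cv μ g (Function.update F j (F j)) := by
        rcases hgd j (Finset.mem_insert_self j S) with h | ⟨hm, hs⟩
        · refine Cv_closed' hb (hmp j) ?_
          intro ε hε
          obtain ⟨u, K, hu, hK, huK, hKi⟩ := h ε hε
          have hKabs : Continuous fun x => max (K x) 0 := hK.max continuous_const
          have hint : ∫ x, max (K x) 0 ∂μ ≤ ε := by
            refine le_trans (le_of_eq ?_) hKi
            apply integral_congr_ae
            filter_upwards [huK] with x hx
            exact max_eq_left ((norm_nonneg _).trans hx)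
          have h5 : ∀ᵐ x ∂μ, ‖F j x - u x‖ ≤ max (K x) 0 := by
            filter_upwards [huK] with x hx
            exact hx.trans (le_max_left _ _)
          have h6 : Cr μ (g j) (fun x => max (K x) 0) := Cr_cont hΦ hΦ0 haff (hP j) hKabs
          exact ⟨u, fun x => max (K x) 0, hKabs.measurable, bdr_cont hKabs,
            fun x => le_max_right _ _, h5, hint, h6, hup u hu⟩
        · refine Cv_closed1 hb (hmp j) hs ⟨hm, hb j⟩ ?_
          intro ε hε
          have hint : Integrable (F j) μ := by
            obtain ⟨C, hC⟩ := hb j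
            exact Integrable.of_bound hm.aestronglyMeasurable C (Eventually.of_forall hC)
          have hreg : μ.Regular := inferInstance
          obtain ⟨p, hp, _⟩ := hint.exists_boundedContinuous_integral_sub_le hε
          exact ⟨p, BM_cont p.continuous, hp, hup p p.continuous⟩
      rwa [Function.update_eq_self] at hmain
  exact key Finset.univ F hb (fun j _ => hF j) fun j hj => absurd (Finset.mem_univ j) hj

end

end Pool.Agent.TH635.AA
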