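import Pool.Agent.TH635.AA.Dic
import Pool.Agent.TH784.AA.Chr

/-!
# Orbit sums with values in a pointwise fixed subgroup are polynomial
-/

set_option autoImplicit false

namespace Pool.Agent.TH635.AA

open Pool.Agent.W742.CU (IsPoly Dv)

noncomputable section

section one

variable {A N : Type*} [AddCommGroup A] [AddCommGroup N] {Φ : Act A N}

/-- the order on weights -/
def lx {D : ℕ} (w' w : Fin D → ℕ) : Prop :=
  Pi.Lex (ι := Fin D) (β := fun _ => ℕ) (· > ·) (fun {_} => (· < ·)) w' w

theorem lx_wf (D : ℕ) : WellFounded (lx (D := D)) := Pi.Lex.wellFounded _ fun _ => wellFounded_lt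

theorem lx_of_le {D : ℕ} {w' w : Fin D → ℕ} (h : ∀ i, w' i ≤ w i) (hne : w' ≠ w) : lx w' w := by
  classical
  have hex : ((Finset.univ : Finset (Fin D)).filter fun i => w' i ≠ w i).Nonempty := by
    by_contra hcon
    rw [Finset.not_nonempty_iff_eq_empty, Finset.filter_eq_empty_iff] at hcon
    apply hne
    funext i
    by_contra h1
    exact hcon (Finset.mem_univ i) h1
  set i := ((Finset.univ : Finset (Fin D)).filter fun i => w' i ≠ w i).max' hex with hi
  have h1 := Finset.max'_mem _ hex
  rw [← hi, Finset.mem_filter] at h1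
  refine ⟨i, fun j hj => ?_, lt_of_le_of_ne (h i) h1.2⟩
  by_contra h2
  have h3 : j ≤ i := Finset.le_max' _ j (by
    rw [Finset.mem_filter]
    exact ⟨Finset.mem_univ j, h2⟩)
  exact absurd hj (not_lt.mpr h3)

theorem exists_tra {D β : ℕ} {B : Fam A N} (hB0 : B ≠ 0) (hG : Gd D β B)
    (h0 : (0 : ℤ → A) ∉ B.support) :
    ∃ s₁ ∈ B.support, lx (wt D (traB s₁ B).support) (wt D B.support) := by
  classical
  obtain ⟨s₀, hs₀⟩ := Finsupp.support_nonempty_iff.mpr hB0
  have hex : ∃ i, ∃ s ∈ B.support, Pol (i + 1) s := ⟨D, s₀, hs₀, (hG s₀ hs₀).2.1⟩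
  set e := Nat.find hex with he
  obtain ⟨s₁, hs₁, hs₁e⟩ : ∃ s ∈ B.support, Pol (e + 1) s := Nat.find_spec hex
  have heD : e ≤ D := Nat.find_min' hex ⟨s₀, hs₀, (hG s₀ hs₀).2.1⟩
  have he1 : 1 ≤ e := by
    by_contra hcon
    have he0 : e = 0 := by omega
    rw [he0, zero_add] at hs₁e
    apply h0
    have : s₁ = 0 := by
      funext t
      rw [Pol_one_iff.mp hs₁e t, (hG s₁ hs₁).1]
      rfl
    rwa [this] at hs₁
  have hmin : ∀ s ∈ B.support, ¬ Pol e s := by
    intro s hs hp
    have h1 := Nat.find_min hex (m := e - 1) (by omega)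
    apply h1
    refine ⟨s, hs, ?_⟩
    rwa [Nat.sub_add_cancel he1]
  refine ⟨s₁, hs₁, ⟨e - 1, by omega⟩, ?_, ?_⟩
  · intro j hj
    have hj' : e < (j : ℕ) + 1 := by
      have h2 : (e - 1 : ℕ) < (j : ℕ) := hj
      omega
    show (tops ((j : ℕ) + 1) _).card = (tops ((j : ℕ) + 1) _).card
    rw [tops_traB_high hs₁e hj']
  · show (tops (e - 1 + 1) _).card < (tops (e - 1 + 1) _).card
    rw [Nat.sub_add_cancel he1]
    exact tops_traB_eq hs₁ hs₁e hmin

theorem tops_difB_sub {B : Fam A N} {h : ℤ} {i : ℕ} (hi : 1 ≤ i) :
    tops i (difB Φ h B).support ⊆ tops i B.support := by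
  classical
  intro c hc
  rw [mem_tops] at hc ⊢
  obtain ⟨hc0, p, hp, hpp, hpc⟩ := hc
  refine ⟨hc0, ?_⟩
  have h1 := difB_support hp
  rw [Finset.mem_union, Finset.mem_image] at h1
  rcases h1 with h1 | ⟨s, hs, rfl⟩
  · exact ⟨p, h1, hpp, hpc⟩
  · have hs' := Pol_of_tau hpp
    exact ⟨s, hs, hs', by rw [← hpc, dd_tau hi h hs']⟩

theorem wt_le {D J : ℕ} {B : Fam A N} (hJ : B.support.card ≤ J) :
    wt D B.support ∈ Fintype.piFinset fun _ : Fin D => Finset.range (J + 1) := by
  rw [Fintype.mem_piFinset]
  intro i
  rw [Finset.mem_range, Nat.lt_succ_iff]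
  exact tops_card.trans hJ

/-- families with values in a fixed subgroup -/
theorem fixpol {K : AddSubgroup N} (hK : ∀ a, ∀ x ∈ K, Φ.e a x = x) (D β : ℕ) (w : Fin D → ℕ) :
    ∀ b J : ℕ, ∃ d, ∀ B : Fam A N, Gd D β B → B.support.card ≤ J → wt D B.support = w →
      Pol b (B 0) → (∀ t, ev Φ B t ∈ K) → Pol d (ev Φ B) := by
  classical
  induction w using (lx_wf D).induction with
  | h w ih =>
    have hun : ∀ J : ℕ, ∃ d, ∀ B : Fam A N, Gd D β B → B.support.card ≤ J →
        lx (wt D B.support) w → (∀ t, ev Φ B t ∈ K) → Pol d (ev Φ B) := by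
      intro J
      have h1 : ∀ w' : Fin D → ℕ, ∃ d, lx w' w → ∀ B : Fam A N, Gd D β B → B.support.card ≤ J →
          wt D B.support = w' → Pol β (B 0) → (∀ t, ev Φ B t ∈ K) → Pol d (ev Φ B) := by
        intro w'
        by_cases hw' : lx w' w
        · obtain ⟨d, hd⟩ := ih w' hw' β J
          exact ⟨d, fun _ => hd⟩
        · exact ⟨0, fun h => absurd h hw'⟩
      choose d hd using h1
      refine ⟨(Fintype.piFinset fun _ : Fin D => Finset.range (J + 1)).sup d,
        fun B hG hJ hlx hKB => ?_⟩
      exact Pol_mono (Finset.le_sup (f := d) (wt_le hJ))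
        (hd _ hlx B hG hJ rfl (Gd_Pol hG 0) hKB)
    intro b
    induction b with
    | zero =>
      intro J
      obtain ⟨d, hd⟩ := hun J
      refine ⟨d, fun B hG hJ hw hb hKB => ?_⟩
      by_cases hB0 : B = 0
      · rw [hB0]
        have e : ev Φ (0 : Fam A N) = fun _ => 0 := funext fun t => ev_zero Φ t
        rw [e]
        exact Pol_zero_fun d
      · have h0 : (0 : ℤ → A) ∉ B.support := by
          rw [Finsupp.notMem_support_iff]
          exact funext hb
        obtain ⟨s₁, hs₁, hlx⟩ := exists_tra hB0 hG h0
        have hev : ev Φ (traB s₁ B) = ev Φ B := by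
          funext t
          rw [ev_traB, hK _ _ (hKB t)]
        rw [← hev]
        apply hd (traB s₁ B) (Gd_traB hG hs₁)
        · rw [traB_support]
          exact Finset.card_image_le.trans hJ
        · rw [← hw]
          exact hlx
        · intro t
          rw [hev]
          exact hKB t
    | succ b ihb =>
      intro J
      obtain ⟨d₁, h1⟩ := ihb (2 * J)
      obtain ⟨d₂, h2⟩ := hun (2 * J)
      refine ⟨max d₁ d₂ + 1, fun B hG hJ hw hb hKB => ?_⟩
      have hG' : Gd D β (difB Φ 1 B) := Gd_difB hG 1
      have hJ' : (difB Φ 1 B).support.card ≤ 2 * J := by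
        refine (Finset.card_le_card difB_support).trans ((Finset.card_union_le _ _).trans ?_)
        have := Finset.card_image_le (s := B.support) (f := tau 1)
        omega
      have hKB' : ∀ t, ev Φ (difB Φ 1 B) t ∈ K := by
        intro t
        rw [ev_difB]
        exact K.sub_mem (hKB _) (hKB _)
      have hb' : Pol b ((difB Φ 1 B) 0) := by
        have e : (difB Φ 1 B) 0 = fun t => B 0 (t + 1) - B 0 t := by
          funext t
          rw [difB, Finsupp.sub_apply, shB_zero_type hG, Pi.sub_apply]
        rw [e]
        exact Pol_diff hb 1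
      have hle : ∀ i, wt D (difB Φ 1 B).support i ≤ w i := by
        intro i
        rw [← hw]
        exact Finset.card_le_card (tops_difB_sub (by omega))
      have hmain : Pol (max d₁ d₂) (ev Φ (difB Φ 1 B)) := by
        by_cases hww : wt D (difB Φ 1 B).support = w
        · exact Pol_mono (le_max_left _ _) (h1 _ hG' hJ' hww hb' hKB')
        · exact Pol_mono (le_max_right _ _) (h2 _ hG' hJ' (lx_of_le hle hww) hKB')
      intro t
      rw [dd_succ]
      have e : (fun t => ev Φ B (t + 1) - ev Φ B t) = ev Φ (difB Φ 1 B) := by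
        funext t
        rw [ev_difB]
      rw [e]
      exact hmain t

theorem fix_list {K : AddSubgroup N} (hK : ∀ a, ∀ x ∈ K, Φ.e a x = x) (D β J : ℕ) :
    ∃ d, ∀ L : List ((ℤ → A) × (ℤ → N)), L.length ≤ J →
      (∀ x ∈ L, Pol (D + 1) x.1 ∧ Pol β x.2) → (∀ t, lev Φ L t ∈ K) → Pol d (lev Φ L) := by
  classical
  choose d hd using fun w => fixpol (Φ := Φ) hK D β w β J
  refine ⟨(Fintype.piFinset fun _ : Fin D => Finset.range (J + 1)).sup d, fun L hJ hL hKL => ?_⟩
  have e : ev Φ (famL Φ L) = lev Φ L := funext fun t => ev_famL Φ L t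
  have hG := famL_Gd Φ L hL
  have hJ' := (famL_card Φ L).trans hJ
  rw [← e]
  exact Pol_mono (Finset.le_sup (f := d) (wt_le hJ'))
    (hd _ (famL Φ L) hG hJ' rfl (Gd_Pol hG 0) (by rw [e]; exact hKL))

end one

section multi

variable {G : Type*} [AddCommGroup G] {k : ℕ}

theorem isPoly_shift {n : ℕ} {θ : (Fin k → ℤ) → G} (h : IsPoly n θ) (c : Fin k → ℤ) :
    IsPoly n (fun x => θ (x + c)) := by
  induction n generalizing θ with
  | zero =>
    intro x
    show θ (x + c) = θ (0 + c)
    rw [h (x + c), h (0 + c)]
  | succ n ih =>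
    intro v
    have e : Dv v (fun x => θ (x + c)) = fun x => Dv v θ (x + c) := by
      funext x
      show θ (x + v + c) - θ (x + c) = θ (x + c + v) - θ (x + c)
      rw [add_right_comm]
    rw [e]
    exact ih (h v)

/-- separate degrees -/
def SepD (d : Fin k → ℕ) (f : (Fin k → ℤ) → G) : Prop :=
  ∀ (m : Fin k → ℤ) (l : Fin k), Pol (d l) (fun t => f (Function.update m l t))

/-- coordinate steps -/
def stp (v : Fin k → ℤ) (s : Finset (Fin k)) : Fin k → ℤ := fun j => if j ∈ s then v j else 0

theorem SepD.diff {d : Fin k → ℕ} {f : (Fin k → ℤ) → G} (hf : SepD d f) {l : Fin k} {n : ℕ}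
    (hl : d l = n + 1) (c : ℤ) :
    SepD (Function.update d l n) (fun m => f (m + Pi.single l c) - f m) := by
  classical
  intro m l'
  by_cases h : l' = l
  · subst h
    rw [Function.update_self]
    have h1 := hf m l'
    rw [hl] at h1
    have h2 := Pol_diff h1 c
    have e : (fun t => f (Function.update m l' t + Pi.single l' c) - f (Function.update m l' t)) =
        fun t => f (Function.update m l' (t + c)) - f (Function.update m l' t) := by
      funext t
      congr 2
      funext j
      by_cases hj : j = l'
      · subst hj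
        rw [Pi.add_apply, Function.update_self, Function.update_self, Pi.single_eq_same]
      · rw [Pi.add_apply, Function.update_of_ne hj, Function.update_of_ne hj,
          Pi.single_eq_of_ne hj, add_zero]
    rw [e]
    exact h2
  · rw [Function.update_of_ne h]
    have h1 := hf (m + Pi.single l c) l'
    have h2 := hf m l'
    have e : (fun t => f (Function.update m l' t + Pi.single l c) - f (Function.update m l' t)) =
        fun t => f (Function.update (m + Pi.single l c) l' t) - f (Function.update m l' t) := by
      funext t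
      congr 2
      funext j
      by_cases hj : j = l'
      · subst hj
        rw [Pi.add_apply, Function.update_self, Function.update_self, Pi.single_eq_of_ne h,
          add_zero]
      · rw [Pi.add_apply, Function.update_of_ne hj, Function.update_of_ne hj, Pi.add_apply]
    rw [e]
    exact Pol_sub h1 h2

theorem sepD_isPoly (n : ℕ) : ∀ (d : Fin k → ℕ) (f : (Fin k → ℤ) → G), ∑ l, d l = n →
    SepD d f → IsPoly n f := by
  classical
  induction n with
  | zero =>
    intro d f hd hf x
    rcases Nat.eq_zero_or_pos k with hk | hk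
    · subst hk
      rw [Subsingleton.elim x 0]
    · have h1 : ∀ y, f y = 0 := by
        intro y
        have h2 := hf y ⟨0, hk⟩
        have h3 : d ⟨0, hk⟩ = 0 := by
          rw [Finset.sum_eq_zero_iff] at hd
          exact hd _ (Finset.mem_univ _)
        rw [h3] at h2
        have h4 := h2 (y ⟨0, hk⟩)
        rw [dd_zero, Function.update_eq_self] at h4
        exact h4
      rw [h1, h1]
  | succ n ih =>
    intro d f hd hf v
    by_cases hz : ∃ l, d l = 0
    · obtain ⟨l, hl⟩ := hz
      have h1 : ∀ y, f y = 0 := by
        intro y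
        have h2 := hf y l
        rw [hl] at h2
        have h4 := h2 (y l)
        rw [dd_zero, Function.update_eq_self] at h4
        exact h4
      have e : Dv v f = fun _ => 0 := by
        funext y
        show f (y + v) - f y = 0
        rw [h1, h1, sub_zero]
      rw [e]
      exact Pool.Agent.W742.CU.IsPoly.const n 0
    push Not at hz
    -- telescoping
    have key : ∀ s : Finset (Fin k), IsPoly n (fun m => f (m + stp v s) - f m) := by
      intro s
      induction s using Finset.induction_on with
      | empty =>
        have e : (fun m => f (m + stp v ∅) - f m) = fun _ => 0 := by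
          funext m
          have : stp v (∅ : Finset (Fin k)) = 0 := by
            funext j
            simp [stp]
          rw [this, add_zero, sub_self]
        rw [e]
        exact Pool.Agent.W742.CU.IsPoly.const n 0
      | insert l s hl ihs =>
        obtain ⟨n', hn'⟩ : ∃ n', d l = n' + 1 := ⟨d l - 1, by have := hz l; omega⟩
        have h1 := hf.diff hn' (v l)
        have h2 : IsPoly n (fun m => f (m + Pi.single l (v l)) - f m) := by
          apply ih _ _ _ h1
          have h3 := Finset.add_sum_erase Finset.univ d (Finset.mem_univ l)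
          have h4 := Finset.add_sum_erase Finset.univ (Function.update d l n') (Finset.mem_univ l)
          rw [Function.update_self] at h4
          have h5 : ∑ x ∈ Finset.univ.erase l, Function.update d l n' x =
              ∑ x ∈ Finset.univ.erase l, d x := by
            apply Finset.sum_congr rfl
            intro x hx
            rw [Function.update_of_ne (Finset.ne_of_mem_erase hx)]
          omega
        have h3 := isPoly_shift h2 (stp v s)
        have e : (fun m => f (m + stp v (insert l s)) - f m) = fun m =>
            (f (m + stp v s + Pi.single l (v l)) - f (m + stp v s)) + (f (m + stp v s) - f m) := by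
          funext m
          have e1 : stp v (insert l s) = stp v s + Pi.single l (v l) := by
            funext j
            unfold stp
            rw [Pi.add_apply]
            by_cases hj : j = l
            · subst hj
              rw [if_pos (Finset.mem_insert_self _ _), if_neg hl, Pi.single_eq_same, zero_add]
            · rw [Pi.single_eq_of_ne hj, add_zero]
              simp only [Finset.mem_insert, hj, false_or]
          rw [e1, ← add_assoc]
          abel
        rw [e]
        exact h3.add ihs
    have h1 := key Finset.univ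
    have e : Dv v f = fun m => f (m + stp v Finset.univ) - f m := by
      funext m
      have : stp v (Finset.univ : Finset (Fin k)) = v := by
        funext j
        simp [stp]
      rw [this]
      rfl
    rw [e]
    exact h1

theorem sep_isPoly {n : ℕ} {f : (Fin k → ℤ) → G} (hf : Sep n f) : IsPoly (k * n) f := by
  apply sepD_isPoly (k * n) (fun _ => n) f
  · simp
  · exact hf

variable {A N : Type*} [AddCommGroup A] [AddCommGroup N] {Φ : Act A N}

theorem fix_cls {K : AddSubgroup N} (hK : ∀ a, ∀ x ∈ K, Φ.e a x = x) {J D β : ℕ}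
    {V : (Fin k → ℤ) → N} (hV : Cls Φ J D β V) (hVK : ∀ m, V m ∈ K) : ∃ d, IsPoly d V := by
  obtain ⟨d, hd⟩ := fix_list (Φ := Φ) hK D β J
  refine ⟨k * d, sep_isPoly fun m l => ?_⟩
  obtain ⟨L, hJ, hL, hLV⟩ := hV.slice m l
  have e : (fun t => V (Function.update m l t)) = lev Φ L := funext hLV
  rw [e]
  apply hd L hJ hL
  intro t
  rw [← hLV]
  exact hVK _

end multi

end

end Pool.Agent.TH635.AA
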