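import Pool.Agent.TH635.AA.Mod

/-!
# Integer polynomials of several variables as exponents
-/

set_option autoImplicit false

namespace Pool.Agent.TH635.AA

open MvPolynomial

variable {k : ℕ}

theorem Pol_mul_lin {n : ℕ} {f : ℤ → ℤ} (hf : Pol n f) (a q : ℤ) :
    Pol (n + 1) (fun t => f t * (a + q * t)) := by
  induction n generalizing f with
  | zero =>
    have h : ∀ t, f t = 0 := hf
    have e : (fun t => f t * (a + q * t)) = fun _ => 0 := by
      funext t
      rw [h, zero_mul]
    rw [e]
    exact Pol_zero_fun _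
  | succ n ih =>
    intro t
    rw [dd_succ]
    have e : (fun t => f (t + 1) * (a + q * (t + 1)) - f t * (a + q * t)) =
        fun t => (f (t + 1) - f t) * (a + q * t) + q * f (t + 1) := by
      funext t
      ring
    rw [e]
    have h1 : Pol n (fun t => f (t + 1) - f t) := Pol_diff hf 1
    have h2 : Pol (n + 1) (fun t => q * f (t + 1)) :=
      Pol_hom (AddMonoidHom.mulLeft q) (Pol_shift hf 1)
    exact Pol_add (ih h1) h2 t

theorem Pol_pow_lin (a q : ℤ) (s : ℕ) : Pol (s + 1) (fun t : ℤ => (a + q * t) ^ s) := by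
  induction s with
  | zero =>
    simp only [pow_zero]
    exact Pol_const le_rfl _
  | succ s ih =>
    simp only [pow_succ]
    exact Pol_mul_lin ih a q

theorem Pol_sum {ι : Type*} (s : Finset ι) {n : ℕ} {f : ι → ℤ → ℤ} (h : ∀ i ∈ s, Pol n (f i)) :
    Pol n (fun t => ∑ i ∈ s, f i t) := by
  classical
  induction s using Finset.induction_on with
  | empty =>
    simp only [Finset.sum_empty]
    exact Pol_zero_fun n
  | insert i s hi ih =>
    simp only [Finset.sum_insert hi]
    exact Pol_add (h i (Finset.mem_insert_self i s))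
      (ih fun j hj => h j (Finset.mem_insert_of_mem hj))

theorem sep_eval (p : MvPolynomial (Fin k) ℤ) {D : ℕ} (hD : p.totalDegree ≤ D) (q : ℤ)
    (r : Fin k → ℤ) : Sep (D + 1) (fun m => eval (fun j => r j + q * m j) p) := by
  intro m l
  have e : (fun t => eval (fun j => r j + q * Function.update m l t j) p) =
      fun t => ∑ s ∈ p.support, (coeff s p * ∏ j ∈ Finset.univ.erase l, (r j + q * m j) ^ s j) *
        (r l + q * t) ^ s l := by
    funext t
    rw [eval_eq']
    apply Finset.sum_congr rfl
    intro s _
    rw [← Finset.mul_prod_erase _ _ (Finset.mem_univ l), Function.update_self]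
    have h1 : ∏ x ∈ Finset.univ.erase l, (r x + q * Function.update m l t x) ^ s x =
        ∏ j ∈ Finset.univ.erase l, (r j + q * m j) ^ s j := by
      apply Finset.prod_congr rfl
      intro j hj
      rw [Function.update_of_ne (Finset.ne_of_mem_erase hj)]
    rw [h1]
    ring
  rw [e]
  apply Pol_sum
  intro s hs
  have h2 : s l ≤ D := by
    refine le_trans ?_ ((le_totalDegree hs).trans hD)
    exact Finsupp.le_degree l s
  exact Pol_hom (AddMonoidHom.mulLeft _) (Pol_mono (Nat.succ_le_succ h2) (Pol_pow_lin (r l) q (s l)))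

theorem eval_modEq (p : MvPolynomial (Fin k) ℤ) {q : ℤ} {x y : Fin k → ℤ}
    (h : ∀ j, x j ≡ y j [ZMOD q]) : eval x p ≡ eval y p [ZMOD q] := by
  induction p using MvPolynomial.induction_on with
  | C a =>
    rw [eval_C, eval_C]
  | add a b ha hb =>
    rw [map_add, map_add]
    exact ha.add hb
  | mul_X a i ha =>
    rw [map_mul, map_mul, eval_X, eval_X]
    exact ha.mul (h i)

/-- **Integer polynomials are admissible exponents.** -/
theorem intP_eval {d : ℕ} (p : Fin d → MvPolynomial (Fin k) ℤ) {D : ℕ}
    (hD : ∀ i, (p i).totalDegree ≤ D) :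
    IntP D (fun (m : Fin k → ℤ) (i : Fin d) => eval m (p i)) := by
  intro q r
  rcases Nat.eq_zero_or_pos q with hq | hq
  · subst hq
    refine ⟨fun _ => 0, fun m l => Pol_zero_fun _, fun m => ?_⟩
    rw [zero_smul, add_zero]
    funext i
    congr 1
    simp
  have hdvd : ∀ (i : Fin d) (m : Fin k → ℤ), (q : ℤ) ∣
      eval (fun j => r j + q * m j) (p i) - eval r (p i) := by
    intro i m
    apply Int.ModEq.dvd
    apply eval_modEq
    intro j
    rw [Int.modEq_iff_dvd]
    exact ⟨m j, by ring⟩
  choose P' hP' using hdvd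
  refine ⟨fun m i => P' i m, ?_, ?_⟩
  · intro m l t
    have h1 : ∀ i, Pol (D + 1) (fun t => (q : ℤ) * P' i (Function.update m l t)) := by
      intro i
      have e : (fun t => (q : ℤ) * P' i (Function.update m l t)) =
          fun t => eval (fun j => r j + q * Function.update m l t j) (p i) - eval r (p i) := by
        funext t
        rw [hP']
      rw [e]
      exact Pol_sub (sep_eval (p i) (hD i) q r m l) (Pol_const (by omega) _)
    funext i
    have h2 : dd (D + 1) (fun t => (q : ℤ) * P' i (Function.update m l t)) t =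
        (q : ℤ) * dd (D + 1) (fun t => P' i (Function.update m l t)) t :=
      dd_hom (D + 1) (AddMonoidHom.mulLeft (q : ℤ)) _ t
    rw [h1 i t] at h2
    have h3 : dd (D + 1) (fun t => P' i (Function.update m l t)) t = 0 := by
      have hq' : (q : ℤ) ≠ 0 := by exact_mod_cast hq.ne'
      exact (mul_eq_zero.1 h2.symm).resolve_left hq'
    have h4 : dd (D + 1) (fun t => (fun i => P' i (Function.update m l t) : Fin d → ℤ)) t i =
        dd (D + 1) (fun t => P' i (Function.update m l t)) t :=
      (dd_hom (D + 1) (Pi.evalAddMonoidHom (fun _ : Fin d => ℤ) i) _ t).symm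
    rw [h4, h3]
    rfl
  · intro m
    funext i
    rw [Pi.add_apply, Pi.smul_apply, nsmul_eq_mul, ← hP']
    ring

end Pool.Agent.TH635.AA
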