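import Pool.Agent.TH635.AA.Dns
import Pool.Agent.TH635.AA.Ply
import Pool.Agent.TH635.FB.Fin

/-!
# Assembly: polynomial exponents
-/

set_option autoImplicit false
set_option linter.unusedSectionVars false

open Filter Topology MeasureTheory
open scoped ENNReal

noncomputable section

namespace Pool.Agent.TH635.AA

open Pool.Agent.TH784.AA
open Pool.Agent.W761.Box (bxc bx BM Cv Good1 good1 prod_zpow_add eval_affine)
open Pool.Agent.TH635.FB (clampC clampC_cont clampC_bd clampC_eq riem_complex)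

variable {X : Type*} [CommGroup X] [TopologicalSpace X] [IsTopologicalGroup X] [CompactSpace X]
  [T2Space X] [MeasurableSpace X] [BorelSpace X] {μ : Measure X} [μ.IsHaarMeasure]
  [IsProbabilityMeasure μ] {d k n : ℕ}

/-- the maps `T_1^{p_1(m)} ⋯ T_d^{p_d(m)}` -/
def S (T : Fin d → Equiv.Perm X) (p : Fin d → MvPolynomial (Fin k) ℤ) (m : Fin k → ℕ) : X → X :=
  fun x => (List.ofFn fun i : Fin d => T i ^ (MvPolynomial.eval (fun l => ((m l : ℕ) : ℤ)) (p i))).prod x

omit [T2Space X] [CompactSpace X] [IsTopologicalGroup X] [CommGroup X] in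
theorem riemInt_congr {f g : X → ℂ} (h : f =ᵐ[μ] g) (hf : RiemInt μ f) : RiemInt μ g := by
  intro ε hε
  obtain ⟨u, K, hu, hK, h1, h2⟩ := hf ε hε
  refine ⟨u, K, hu, hK, ?_, h2⟩
  filter_upwards [h1, h] with x hx hx'
  rwa [← hx']

/-- bounded functions -/
theorem poly_bdd {T : Fin d → Equiv.Perm X} (hT : ∀ i, IsAff (T i : X → X))
    (hc : ∀ i j, Commute (T i) (T j)) (P : Fin d → Fin n → MvPolynomial (Fin k) ℤ)
    {F : Fin n → X → ℂ} (hb : ∀ j, Bd (F j))
    (hF : ∀ j, RiemInt μ (F j) ∨ (Measurable (F j) ∧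
      ((∀ i, (P i j).totalDegree ≤ 1) ∨ Good1 μ (S T fun i => P i j)))) :
    Cv μ (fun j m => S T (fun i => P i j) m) F := by
  classical
  let Φ : (Fin d → ℤ) → Equiv.Perm X := fun a => (List.ofFn fun i => T i ^ a i).prod
  have hΦ : ∀ a b, Φ (a + b) = Φ a * Φ b := fun a b => prod_zpow_add T hc a b
  have hΦ0 : Φ 0 = 1 := by
    show (List.ofFn fun i => T i ^ ((0 : Fin d → ℤ) i)).prod = 1
    simp
  have haff : ∀ a, IsAff (Φ a : X → X) := fun a => isAff_prod hT a
  have hfg : AddGroup.FG (Fin d → ℤ) := Module.Finite.iff_addGroup_fg.1 inferInstance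
  set D : ℕ := ∑ i, ∑ j, (P i j).totalDegree with hD
  have hDij : ∀ i j, (P i j).totalDegree ≤ D := by
    intro i j
    refine le_trans ?_ (Finset.single_le_sum (f := fun i => ∑ j, (P i j).totalDegree)
      (fun _ _ => Nat.zero_le _) (Finset.mem_univ i))
    exact Finset.single_le_sum (f := fun j => (P i j).totalDegree)
      (fun _ _ => Nat.zero_le _) (Finset.mem_univ j)
  let p : Fin n → (Fin k → ℤ) → (Fin d → ℤ) := fun j m i => MvPolynomial.eval m (P i j)
  have hP : ∀ j, IntP D (p j) := fun j => intP_eval (fun i => P i j) fun i => hDij i j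
  have hmain := conv_slots (μ := μ) hΦ hΦ0 haff hP hb (fun j => by
    rcases hF j with h | ⟨hm, h | h⟩
    · exact Or.inl h
    · refine Or.inr ⟨hm, ?_⟩
      have h1 := good1 (μ := μ) hΦ hΦ0 (fun b => (haff b).mp)
        (fun i => MvPolynomial.coeff 0 (P i j))
        (fun (l : Fin k) (i : Fin d) => MvPolynomial.coeff (Finsupp.single l 1) (P i j))
      have e : (fun m : Fin k → ℕ => (Φ ((fun i => MvPolynomial.coeff 0 (P i j)) +
          ∑ l, m l • fun (i : Fin d) => MvPolynomial.coeff (Finsupp.single l 1) (P i j)) :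
            X → X)) = fun m => (Φ (p j (nz m)) : X → X) := by
        funext m
        congr 2
        funext i
        show _ = MvPolynomial.eval (nz m) (P i j)
        rw [eval_affine _ (h i), Pi.add_apply, Finset.sum_apply]
        congr 1
      rw [e] at h1
      exact h1
    · exact Or.inr ⟨hm, h⟩)
  exact hmain

/-- essentially bounded functions -/
theorem poly_top {T : Fin d → Equiv.Perm X} (hT : ∀ i, IsAff (T i : X → X))
    (hc : ∀ i j, Commute (T i) (T j)) (P : Fin d → Fin n → MvPolynomial (Fin k) ℤ)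
    {f : Fin n → X → ℂ} (hf : ∀ j, MemLp (f j) ∞ μ)
    (hF : ∀ j, (∀ i, (P i j).totalDegree ≤ 1) ∨ RiemInt μ (f j) ∨
      (TopologicalSpace.MetrizableSpace X ∧ ∀ᵐ x ∂μ, ContinuousAt (f j) x) ∨
      Good1 μ (S T fun i => P i j)) :
    Cv μ (fun j m => S T (fun i => P i j) m) f := by
  have hbd : ∀ j, ∃ C : ℝ, 0 ≤ C ∧ ∀ᵐ x ∂μ, ‖f j x‖ ≤ C := by
    intro j
    refine ⟨(eLpNormEssSup (f j) μ).toReal, ENNReal.toReal_nonneg, ?_⟩
    have h1 := (hf j).eLpNorm_lt_top
    rw [eLpNorm_exponent_top] at h1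
    filter_upwards [ae_le_eLpNormEssSup (f := f j) (μ := μ)] with x hx
    have h2 := ENNReal.toReal_mono h1.ne hx
    rwa [toReal_enorm] at h2
  choose C hC0 hC using hbd
  have hcl : ∀ j, f j =ᵐ[μ] fun x => clampC (C j) (f j x) := by
    intro j
    filter_upwards [hC j] with x hx
    exact (clampC_eq hx).symm
  have hrm : ∀ j, ∃ g : X → ℂ, BM g ∧ f j =ᵐ[μ] g := by
    intro j
    have hm := (hf j).1.stronglyMeasurable_mk.measurable
    refine ⟨fun x => clampC (C j) ((hf j).1.mk (f j) x),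
      ⟨(clampC_cont _).measurable.comp hm, _, fun x => clampC_bd (hC0 j) _⟩, ?_⟩
    filter_upwards [hC j, (hf j).1.ae_eq_mk] with x hx hx'
    rw [← hx', clampC_eq hx]
  have hrep : ∀ j, ∃ F : X → ℂ, Bd F ∧ f j =ᵐ[μ] F ∧
      (RiemInt μ F ∨ (Measurable F ∧
      ((∀ i, (P i j).totalDegree ≤ 1) ∨ Good1 μ (S T fun i => P i j)))) := by
    intro j
    rcases hF j with h | h | ⟨hm, h⟩ | h
    · obtain ⟨g, hg, hfg⟩ := hrm j
      exact ⟨g, hg.2, hfg, Or.inr ⟨hg.1, Or.inl h⟩⟩
    · exact ⟨fun x => clampC (C j) (f j x), ⟨_, fun x => clampC_bd (hC0 j) _⟩, hcl j,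
        Or.inl (riemInt_congr (hcl j) h)⟩
    · refine ⟨fun x => clampC (C j) (f j x), ⟨_, fun x => clampC_bd (hC0 j) _⟩, hcl j,
        Or.inl ?_⟩
      intro ε hε
      let _ : MetricSpace X := TopologicalSpace.metrizableSpaceMetric X
      have hcont : ∀ᵐ x ∂μ, ContinuousAt (fun x => clampC (C j) (f j x)) x := by
        filter_upwards [h] with x hx
        exact (clampC_cont _).continuousAt.comp hx
      obtain ⟨u, K, hu, hK, h1, h2⟩ := riem_complex μ (fun x => clampC_bd (hC0 j) (f j x)) hcont hε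
      exact ⟨u, K, hu, hK, Eventually.of_forall h1, h2⟩
    · obtain ⟨g, hg, hfg⟩ := hrm j
      exact ⟨g, hg.2, hfg, Or.inr ⟨hg.1, Or.inr h⟩⟩
  choose F hF1 hF2 hF3 using hrep
  have hmain := poly_bdd hT hc P hF1 hF3
  have hmp : ∀ j m, MeasurePreserving (S T (fun i => P i j) m) μ μ := fun j m =>
    (isAff_prod hT _).mp
  have heq : ∀ᵐ x ∂μ, ∀ (j : Fin n) (m : Fin k → ℕ),
      f j (S T (fun i => P i j) m x) = F j (S T (fun i => P i j) m x) := by
    rw [ae_all_iff]
    intro j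
    rw [ae_all_iff]
    intro m
    exact (hmp j m).quasiMeasurePreserving.ae (hF2 j)
  filter_upwards [hmain, heq] with x hx hx'
  obtain ⟨L, hL⟩ := hx
  refine ⟨L, hL.congr fun N => ?_⟩
  congr 1
  funext m
  exact Finset.prod_congr rfl fun j _ => (hx' j m).symm

end Pool.Agent.TH635.AA
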