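import Mathlib

/-!
# Splitting a finitely generated abelian group along the saturation of a subgroup
-/

set_option autoImplicit false

namespace Pool.Agent.TH635.AA

open scoped DirectSum

theorem lattice {A : Type*} [AddCommGroup A] [AddGroup.FG A] (Λ : AddSubgroup A) :
    ∃ (n : ℕ) (π : A →+ (Fin n →₀ ℤ)) (σ : (Fin n →₀ ℤ) →+ A) (e : ℕ), 1 ≤ e ∧
      (∀ x, π (σ x) = x) ∧ (∀ a, π a = 0 → e • a ∈ Λ) ∧ ∀ a ∈ Λ, π a = 0 := by
  classical
  have hfg : AddGroup.FG (A ⧸ Λ) := inferInstance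
  obtain ⟨n, ι, _, p, hp, e, ⟨φ⟩⟩ := AddCommGroup.equiv_free_prod_directSum_zmod (A ⧸ Λ)
  let π : A →+ (Fin n →₀ ℤ) :=
    (AddMonoidHom.fst (Fin n →₀ ℤ) (⨁ i : ι, ZMod (p i ^ e i))).comp
      (φ.toAddMonoidHom.comp (QuotientAddGroup.mk' Λ))
  have hπs : Function.Surjective π := by
    intro x
    obtain ⟨y, hy⟩ := QuotientAddGroup.mk'_surjective Λ (φ.symm (x, 0))
    refine ⟨y, ?_⟩
    show (φ (QuotientAddGroup.mk' Λ y)).1 = x
    rw [hy, AddEquiv.apply_symm_apply]
  choose g hg using fun i : Fin n => hπs (Finsupp.single i 1)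
  let σ : (Fin n →₀ ℤ) →+ A := (Finsupp.linearCombination ℤ g).toAddMonoidHom
  refine ⟨n, π, σ, ∏ i, p i ^ e i, ?_, ?_, ?_, ?_⟩
  · exact Nat.succ_le_of_lt (Finset.prod_pos fun i _ => pow_pos (hp i).pos _)
  · intro x
    have h1 : (π.comp σ) = AddMonoidHom.id _ := by
      ext i : 2
      show π (Finsupp.linearCombination ℤ g (Finsupp.single i 1)) = Finsupp.single i 1
      rw [Finsupp.linearCombination_single, one_smul, hg]
    exact DFunLike.congr_fun h1 x
  · intro a ha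
    have h1 : (φ (QuotientAddGroup.mk' Λ a)).1 = 0 := ha
    have h2 : (∏ i, p i ^ e i) • φ (QuotientAddGroup.mk' Λ a) = 0 := by
      apply Prod.ext
      · rw [Prod.smul_fst, h1, smul_zero]
        rfl
      · rw [Prod.smul_snd]
        refine DFinsupp.ext fun i => ?_
        rw [DirectSum.smul_apply]
        obtain ⟨c, hc⟩ : p i ^ e i ∣ ∏ i, p i ^ e i := Finset.dvd_prod_of_mem _ (Finset.mem_univ i)
        rw [hc, nsmul_eq_mul]
        push_cast
        rw [← Nat.cast_pow, ZMod.natCast_self, zero_mul, zero_mul]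
        rfl
    rw [← map_nsmul, map_eq_zero_iff _ φ.injective, ← map_nsmul, QuotientAddGroup.mk'_apply,
      QuotientAddGroup.eq_zero_iff] at h2
    exact h2
  · intro a ha
    show (φ (QuotientAddGroup.mk' Λ a)).1 = 0
    rw [QuotientAddGroup.mk'_apply, (QuotientAddGroup.eq_zero_iff a).mpr ha, map_zero]
    rfl

end Pool.Agent.TH635.AA
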