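import Pool.Agent.TH635.AA.Mul
import Pool.Agent.TH635.AA.Lat
import Pool.Agent.TH784.AA.Irr

/-!
# Exponential sums with polynomial exponents in coprimary modules
-/

set_option autoImplicit false

namespace Pool.Agent.TH635.AA

open Pool.Agent.TH784.AA (cnt vol bxs nz FewB Copr nil_pow)

noncomputable section

section unip

variable {A R N : Type*} [AddCommGroup A] [CommRing R] [AddCommGroup N] [Module R N]

/-- exponential maps -/
structure Ex (u : A → R) : Prop where
  zero : u 0 = 1
  add : ∀ a b, u (a + b) = u a * u b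

theorem Ex.neg {u : A → R} (hu : Ex u) (a : A) : u (-a) * u a = 1 := by
  rw [← hu.add, neg_add_cancel, hu.zero]

theorem Ex.sub_mem {u : A → R} (hu : Ex u) {I : Ideal R} {a b : A} (ha : u a - 1 ∈ I)
    (hb : u b - 1 ∈ I) : u (a - b) - 1 ∈ I := by
  have e : u (a - b) - 1 = u (-b) * ((u a - 1) - (u b - 1)) := by
    rw [sub_eq_add_neg a b, hu.add]
    have := hu.neg b
    linear_combination this
  rw [e]
  exact I.mul_mem_left _ (I.sub_mem ha hb)

theorem Ex.nsmul {u : A → R} (hu : Ex u) (n : ℕ) (a : A) : u (n • a) = u a ^ n := by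
  induction n with
  | zero => rw [zero_smul, hu.zero, pow_zero]
  | succ n ih => rw [succ_nsmul, hu.add, ih, pow_succ]

/-- Unipotent exponentials of polynomials are polynomials. -/
theorem unip {u : A → R} (hu : Ex u) (I : Ideal R) (j : ℕ) : ∀ D γ : ℕ, ∃ β : ℕ,
    ∀ (y : ℤ → A) (c : ℤ → N), (∀ t, u (y t) - 1 ∈ I) → Pol D y →
      (∀ (t : ℤ) (z : R), z ∈ I ^ j → z • c t = 0) → Pol γ c → Pol β (fun t => u (y t) • c t) := by
  induction j with
  | zero =>
    intro D γ
    refine ⟨0, fun y c _ _ hc _ t => ?_⟩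
    show u (y t) • c t = 0
    have h1 := hc t 1 (by rw [pow_zero, Ideal.one_eq_top]; trivial)
    rw [one_smul] at h1
    rw [h1, smul_zero]
  | succ j ih =>
    intro D
    induction D with
    | zero =>
      intro γ
      refine ⟨γ, fun y c _ hy _ hc => ?_⟩
      have e : (fun t => u (y t) • c t) = c := by
        funext t
        have h1 : y t = 0 := hy t
        rw [h1, hu.zero, one_smul]
      rw [e]
      exact hc
    | succ D ihD =>
      intro γ
      induction γ with
      | zero =>
        refine ⟨0, fun y c _ _ _ hc t => ?_⟩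
        show u (y t) • c t = 0
        have h1 : c t = 0 := hc t
        rw [h1, smul_zero]
      | succ γ ihγ =>
        obtain ⟨β₁, h1⟩ := ihD (γ + 1)
        obtain ⟨β₂, h2⟩ := ih (D + 1) (max β₁ (γ + 1))
        obtain ⟨β₃, h3⟩ := ihγ
        refine ⟨max β₂ β₃ + 1, fun y c hyI hy hc hcγ => ?_⟩
        have hdI : ∀ t, u (y (t + 1) - y t) - 1 ∈ I := fun t => hu.sub_mem (hyI _) (hyI _)
        have hdy : Pol D (fun t => y (t + 1) - y t) := Pol_diff hy 1
        have k1 := h1 (fun t => y (t + 1) - y t) (fun t => c (t + 1)) hdI hdy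
          (fun t => hc (t + 1)) (Pol_shift hcγ 1)
        have k2 := h2 y (fun t => u (y (t + 1) - y t) • c (t + 1) - c (t + 1)) hyI hy (by
            intro t z hz
            have e1 : u (y (t + 1) - y t) • c (t + 1) - c (t + 1) =
                (u (y (t + 1) - y t) - 1) • c (t + 1) := by rw [sub_smul, one_smul]
            rw [e1, ← mul_smul]
            apply hc
            rw [pow_succ]
            exact Ideal.mul_mem_mul hz (hdI t))
          (Pol_sub (Pol_mono (le_max_left _ _) k1)
            (Pol_mono (le_max_right _ _) (Pol_shift hcγ 1)))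
        have k3 := h3 y (fun t => c (t + 1) - c t) hyI hy (by
            intro t z hz
            rw [smul_sub, hc _ z hz, hc _ z hz, sub_zero]) (Pol_diff hcγ 1)
        intro t
        rw [dd_succ]
        have e : (fun t => u (y (t + 1)) • c (t + 1) - u (y t) • c t) = fun t =>
            (u (y t) • (u (y (t + 1) - y t) • c (t + 1) - c (t + 1)) +
              u (y t) • (c (t + 1) - c t)) := by
          funext t
          have e2 : u (y (t + 1)) = u (y t) * u (y (t + 1) - y t) := by
            rw [← hu.add, add_sub_cancel]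
          rw [e2, mul_smul, smul_sub, smul_sub]
          abel
        rw [e]
        exact Pol_add (Pol_mono (le_max_left _ _) k2) (Pol_mono (le_max_right _ _) k3) t

end unip

variable {A R N : Type*} [AddCommGroup A] [CommRing R] [AddCommGroup N] [Module R N] {k : ℕ}

/-- polynomial maps with integer coefficients -/
def IntP (D : ℕ) (P : (Fin k → ℤ) → A) : Prop :=
  ∀ (q : ℕ) (r : Fin k → ℤ), ∃ P' : (Fin k → ℤ) → A, Sep (D + 1) P' ∧
    ∀ m, P (fun j => r j + q * m j) = P r + q • P' m

theorem cls_sum {B : Type*} [AddCommGroup B] {Φ : Act B N} {J : Type*} (s : Finset J) {D β : ℕ}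
    (p : J → (Fin k → ℤ) → B) (b : J → (Fin k → ℤ) → N) (hp : ∀ j, Sep (D + 1) (p j))
    (hb : ∀ j, Sep β (b j)) :
    Cls Φ s.card D β (fun m => ∑ j ∈ s, Φ.e (p j m) (b j m)) := by
  refine ⟨s.toList.map fun j => (p j, b j), ?_, ?_, ?_⟩
  · rw [List.length_map, Finset.length_toList]
  · intro x hx
    obtain ⟨j, _, rfl⟩ := List.mem_map.mp hx
    exact ⟨hp j, hb j⟩
  · intro m
    unfold mev
    rw [List.map_map]
    exact (Finset.sum_map_toList s fun j => Φ.e (p j m) (b j m)).symm

/-- **The dichotomy in coprimary modules.** -/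
theorem copr_dich [AddGroup.FG A] [IsNoetherianRing R] (hC : Copr R N) {u : A → R} (hu : Ex u) :
    ∃ q : ℕ, 1 ≤ q ∧ ∀ (J : Type) [Fintype J] (D : ℕ) (P : J → (Fin k → ℤ) → A)
      (_ : ∀ j, IntP D (P j)) (w : J → N) (r : Fin k → ℤ) (l : Fin k),
      (∀ (m : Fin k → ℤ) (t : ℤ), ∑ j, u (P j (fun i => r i + q * Function.update m l t i)) • w j =
        ∑ j, u (P j (fun i => r i + q * m i)) • w j) ∨
      FewB l (fun n => ∑ j, u (P j (fun i => r i + q * nz n i)) • w j) := by
  classical
  set I := Module.annihilator R N with hI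
  -- the unipotent elements
  let Λ : AddSubgroup A :=
    { carrier := {a | u a - 1 ∈ I.radical}
      zero_mem' := by
        show u 0 - 1 ∈ I.radical
        rw [hu.zero, sub_self]
        exact I.radical.zero_mem
      add_mem' := by
        intro a b ha hb
        show u (a + b) - 1 ∈ I.radical
        have e : u (a + b) - 1 = u a * (u b - 1) + (u a - 1) := by
          rw [hu.add]
          ring
        rw [e]
        exact I.radical.add_mem (I.radical.mul_mem_left _ hb) ha
      neg_mem' := by
        intro a ha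
        show u (-a) - 1 ∈ I.radical
        have e : u (-a) - 1 = u (-a) * (-(u a - 1)) := by
          have := hu.neg a
          linear_combination this
        rw [e]
        exact I.radical.mul_mem_left _ (I.radical.neg_mem ha) }
  have hΛ : ∀ a, a ∈ Λ ↔ u a - 1 ∈ I.radical := fun a => Iff.rfl
  obtain ⟨n, π, σ, e, he, hπσ, hker, hΛ0⟩ := lattice Λ
  obtain ⟨s, hs⟩ := I.exists_radical_pow_le_of_fg I.radical.fg_of_isNoetherianRing
  -- the exponent `q`
  have hq : ∃ q : ℕ, 1 ≤ q ∧ e ∣ q ∧ ((∀ (n : ℤ) (x : N), n • x = 0 → n = 0 ∨ x = 0) ∨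
      ∀ a, π a = 0 → u (q • a) - 1 ∈ I) := by
    by_cases hch : ∀ h : ℕ, 1 ≤ h → (h : R) ∉ I.radical
    · refine ⟨e, he, dvd_rfl, Or.inl fun n x hx => ?_⟩
      by_cases hn : n = 0
      · exact Or.inl hn
      right
      have h1 : ((n.natAbs : ℕ) : R) • x = 0 := by
        rw [Nat.cast_smul_eq_nsmul]
        rcases Int.natAbs_eq n with h | h
        · rw [h, natCast_zsmul] at hx
          simpa using hx
        · rw [h, neg_smul, neg_eq_zero, natCast_zsmul] at hx
          simpa using hx
      exact hC.inj_iff.2 (hch n.natAbs (by omega)) x h1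
    · push Not at hch
      obtain ⟨h₀, hh₀, n₀, hn₀⟩ := hch
      set H : ℕ := h₀ ^ n₀ with hH
      have hHI : (H : R) ∈ I := by
        rw [hH]
        push_cast
        exact hn₀
      have hH1 : 1 ≤ H := Nat.one_le_pow _ _ hh₀
      refine ⟨e * H ^ s, Nat.mul_pos he (Nat.one_le_pow _ _ hH1), Dvd.intro _ rfl, Or.inr ?_⟩
      intro a ha
      have h1 : u (e • a) - 1 ∈ I.radical := (hΛ _).1 (hker a ha)
      obtain ⟨c, hc⟩ := nil_pow hHI (u (e • a)) 1 s
      have h2 : (u (e • a) - 1) ^ (s + 1) ∈ I := by
        apply Ideal.pow_mem_of_pow_mem _ (m := s) _ (Nat.le_succ s)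
        exact hs (Ideal.pow_mem_pow h1 s)
      have h3 := I.add_mem hc (I.mul_mem_left c h2)
      rw [sub_add_cancel, one_pow] at h3
      rw [mul_comm, mul_smul, hu.nsmul]
      exact h3
  obtain ⟨q, hq1, heq, hqq⟩ := hq
  have hker' : ∀ a, π a = 0 → u (q • a) - 1 ∈ I.radical := by
    intro a ha
    obtain ⟨c, rfl⟩ := heq
    have h1 : c • (e • a) ∈ Λ := Λ.nsmul_mem (hker a ha) c
    rw [← mul_smul, mul_comm] at h1
    exact h1
  refine ⟨q, hq1, ?_⟩
  intro J _ D P hP w r l
  -- the action of the free part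
  let Φ : Act (Fin n →₀ ℤ) N :=
    { e := fun x => (LinearMap.lsmul R N (u (q • σ x))).toAddMonoidHom
      zero := by
        intro x
        show u (q • σ 0) • x = x
        rw [map_zero, smul_zero, hu.zero, one_smul]
      add := by
        intro a b x
        show u (q • σ (a + b)) • x = u (q • σ a) • u (q • σ b) • x
        rw [map_add, smul_add, hu.add, mul_smul] }
  have hΦ : ∀ x v, Φ.e x v = u (q • σ x) • v := fun x v => rfl
  have htf : ∀ (n' : ℤ) (a : Fin n →₀ ℤ), n' • a = 0 → n' = 0 ∨ a = 0 := by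
    intro n' a h
    exact smul_eq_zero.mp h
  have hfree : Free Φ := by
    intro a x ha hx
    have h1 : u (q • σ a) - 1 ∉ I.radical := by
      intro h
      have h2 := hΛ0 (q • σ a) h
      rw [map_nsmul, hπσ] at h2
      rcases smul_eq_zero.mp h2 with h3 | h3
      · omega
      · exact ha h3
    apply hC.inj_iff.2 h1 x
    rw [sub_smul, one_smul, sub_eq_zero]
    exact hx
  choose P' hP' hPP' using fun j => hP j q r
  -- decomposition
  let lam : J → (Fin k → ℤ) → A := fun j m => P' j m - σ (π (P' j m))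
  have hlam : ∀ j m, π (lam j m) = 0 := by
    intro j m
    show π (P' j m - σ (π (P' j m))) = 0
    rw [map_sub, hπσ, sub_self]
  let p : J → (Fin k → ℤ) → (Fin n →₀ ℤ) := fun j m => π (P' j m)
  let b : J → (Fin k → ℤ) → N := fun j m => u (q • lam j m) • (u (P j r) • w j)
  have hV : ∀ m, ∑ j, u (P j (fun i => r i + q * m i)) • w j = ∑ j, Φ.e (p j m) (b j m) := by
    intro m
    apply Finset.sum_congr rfl
    intro j _
    rw [hΦ, hPP']
    show u (P j r + q • P' j m) • w j =
      u (q • σ (π (P' j m))) • (u (q • (P' j m - σ (π (P' j m)))) • (u (P j r) • w j))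
    rw [← mul_smul, ← mul_smul, ← hu.add, ← hu.add]
    congr 2
    rw [smul_sub]
    abel
  have hp : ∀ j, Sep (D + 1) (p j) := fun j m l => Pol_hom π (hP' j m l)
  have hβ : ∃ β : ℕ, Hyp Φ β ∧ ∀ j, Sep β (b j) := by
    rcases hqq with htN | hone
    · obtain ⟨β, hβ⟩ := unip (N := N) hu I.radical s (D + 1) 1
      refine ⟨max β 1, ⟨hfree, htf, le_max_right _ _, Or.inr htN⟩, fun j m l => ?_⟩
      apply Pol_mono (le_max_left _ _)
      apply hβ (fun t => q • lam j (Function.update m l t)) (fun _ => u (P j r) • w j)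
      · intro t
        exact hker' _ (hlam _ _)
      · have h1 : Pol (D + 1) (fun t => lam j (Function.update m l t)) :=
          Pol_sub (hP' j m l) (Pol_hom σ (Pol_hom π (hP' j m l)))
        exact Pol_hom (nsmulAddMonoidHom q) h1
      · intro t z hz
        exact Module.mem_annihilator.1 (hs hz) _
      · exact Pol_const le_rfl _
    · refine ⟨1, ⟨hfree, htf, le_rfl, Or.inl rfl⟩, fun j m l => ?_⟩
      have e1 : (fun t => b j (Function.update m l t)) = fun _ => u (P j r) • w j := by
        funext t
        have h1 := Module.mem_annihilator.1 (hone _ (hlam j (Function.update m l t)))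
          (u (P j r) • w j)
        rw [sub_smul, one_smul, sub_eq_zero] at h1
        exact h1
      rw [e1]
      exact Pol_const le_rfl _
  obtain ⟨β, hH, hb⟩ := hβ
  have hcls := cls_sum (Φ := Φ) (Finset.univ : Finset J) p b hp hb
  have key := dich_cls hH hcls l
  simp only [← hV] at key
  exact key

end

end Pool.Agent.TH635.AA
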