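import Pool.Agent.TH635.AA.Uni
import Pool.Agent.TH784.AA.Mix

/-!
# Exponential polynomials of several variables: zeros, dichotomy
-/

set_option autoImplicit false

namespace Pool.Agent.TH635.AA

open Pool.Agent.TH784.AA (cnt vol bxs mem_bxs cnt_eq_sum cnt_mono cnt_nonneg vol_pos vol_nonneg
  sum_fiber card_bxs nz FewB)

noncomputable section

variable {A N G : Type*} [AddCommGroup A] [AddCommGroup N] [AddCommGroup G] {Φ : Act A N} {k : ℕ}

/-- polynomials in each variable -/
def Sep (n : ℕ) (f : (Fin k → ℤ) → G) : Prop :=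
  ∀ (m : Fin k → ℤ) (l : Fin k), Pol n (fun t => f (Function.update m l t))

theorem Sep.freeze {n : ℕ} (hn : 1 ≤ n) {f : (Fin k → ℤ) → G} (hf : Sep n f) (l : Fin k) (s : ℤ) :
    Sep n (fun m => f (Function.update m l s)) := by
  intro m l'
  by_cases h : l' = l
  · subst h
    simp only [Function.update_idem]
    exact Pol_const hn _
  · have e : (fun t => f (Function.update (Function.update m l' t) l s)) =
        fun t => f (Function.update (Function.update m l s) l' t) := by
      funext t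
      rw [Function.update_comm h]
    rw [e]
    exact hf _ _

theorem Sep.neg {n : ℕ} {f : (Fin k → ℤ) → G} (hf : Sep n f) : Sep n (fun m => -f m) :=
  fun m l => Pol_neg (hf m l)

/-- lists of exponents and coefficients -/
abbrev MLs (k : ℕ) (A N : Type*) := List (((Fin k → ℤ) → A) × ((Fin k → ℤ) → N))

variable (Φ)

/-- the function -/
def mev (L : MLs k A N) (m : Fin k → ℤ) : N := (L.map fun x => Φ.e (x.1 m) (x.2 m)).sum

/-- the class of exponential polynomials with `J` terms -/
def Cls (J D β : ℕ) (V : (Fin k → ℤ) → N) : Prop :=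
  ∃ L : MLs k A N, L.length ≤ J ∧ (∀ x ∈ L, Sep (D + 1) x.1 ∧ Sep β x.2) ∧ ∀ m, V m = mev Φ L m

variable {Φ}

theorem Cls.freeze {J D β : ℕ} (hβ : 1 ≤ β) {V : (Fin k → ℤ) → N} (h : Cls Φ J D β V) (l : Fin k)
    (s : ℤ) : Cls Φ J D β (fun m => V (Function.update m l s)) := by
  obtain ⟨L, hJ, hL, hV⟩ := h
  refine ⟨L.map fun x => (fun m => x.1 (Function.update m l s),
    fun m => x.2 (Function.update m l s)), by rwa [List.length_map], ?_, ?_⟩
  · intro y hy
    obtain ⟨x, hx, rfl⟩ := List.mem_map.mp hy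
    exact ⟨(hL x hx).1.freeze (by omega) l s, (hL x hx).2.freeze hβ l s⟩
  · intro m
    show V (Function.update m l s) = _
    rw [hV]
    unfold mev
    rw [List.map_map]
    rfl

theorem Cls.sub {J J' D β : ℕ} {V V' : (Fin k → ℤ) → N} (h : Cls Φ J D β V)
    (h' : Cls Φ J' D β V') : Cls Φ (J + J') D β (fun m => V m - V' m) := by
  obtain ⟨L, hJ, hL, hV⟩ := h
  obtain ⟨L', hJ', hL', hV'⟩ := h'
  refine ⟨L ++ L'.map fun x => (x.1, fun m => -x.2 m), ?_, ?_, ?_⟩
  · rw [List.length_append, List.length_map]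
    omega
  · intro y hy
    rcases List.mem_append.mp hy with hy | hy
    · exact hL y hy
    · obtain ⟨x, hx, rfl⟩ := List.mem_map.mp hy
      exact ⟨(hL' x hx).1, (hL' x hx).2.neg⟩
  · intro m
    show V m - V' m = _
    rw [hV, hV', sub_eq_add_neg]
    unfold mev
    rw [List.map_append, List.sum_append, List.map_map]
    congr 1
    clear hV' hL' hJ'
    induction L' with
    | nil => simp
    | cons x L' ih =>
      simp only [List.map_cons, List.sum_cons, Function.comp_apply, map_neg, neg_add] at ih ⊢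
      rw [ih]

theorem Cls.add {J J' D β : ℕ} {V V' : (Fin k → ℤ) → N} (h : Cls Φ J D β V)
    (h' : Cls Φ J' D β V') : Cls Φ (J + J') D β (fun m => V m + V' m) := by
  obtain ⟨L, hJ, hL, hV⟩ := h
  obtain ⟨L', hJ', hL', hV'⟩ := h'
  refine ⟨L ++ L', ?_, ?_, ?_⟩
  · rw [List.length_append]
    omega
  · intro y hy
    rcases List.mem_append.mp hy with hy | hy
    · exact hL y hy
    · exact hL' y hy
  · intro m
    show V m + V' m = _
    rw [hV, hV']
    unfold mev
    rw [List.map_append, List.sum_append]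

theorem Cls.slice {J D β : ℕ} {V : (Fin k → ℤ) → N} (h : Cls Φ J D β V) (m : Fin k → ℤ)
    (l : Fin k) : ∃ L : List ((ℤ → A) × (ℤ → N)), L.length ≤ J ∧
      (∀ x ∈ L, Pol (D + 1) x.1 ∧ Pol β x.2) ∧ ∀ t, V (Function.update m l t) = lev Φ L t := by
  obtain ⟨L, hJ, hL, hV⟩ := h
  refine ⟨L.map fun x => (fun t => x.1 (Function.update m l t),
    fun t => x.2 (Function.update m l t)), by rwa [List.length_map], ?_, ?_⟩
  · intro y hy
    obtain ⟨x, hx, rfl⟩ := List.mem_map.mp hy
    exact ⟨(hL x hx).1 m l, (hL x hx).2 m l⟩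
  · intro t
    rw [hV]
    unfold mev lev
    rw [List.map_map]
    rfl

/-- hypotheses on the action -/
structure Hyp (Φ : Act A N) (β : ℕ) : Prop where
  free : Free Φ
  tf : ∀ (n : ℤ) (a : A), n • a = 0 → n = 0 ∨ a = 0
  one : 1 ≤ β
  coef : β = 1 ∨ ∀ (n : ℤ) (x : N), n • x = 0 → n = 0 ∨ x = 0

theorem slice_bound {β : ℕ} (H : Hyp Φ β) (J D : ℕ) :
    ∃ C δ : ℝ, 0 < C ∧ 0 < δ ∧ δ ≤ 1 ∧ ∀ V : (Fin k → ℤ) → N, Cls Φ J D β V →
      ∀ (m : Fin k → ℤ) (l : Fin k) (w : N), (∀ t : ℤ, V (Function.update m l t) = w) ∨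
        ∀ M : ℕ, 1 ≤ M → ∀ Z : Finset ℕ, (∀ t ∈ Z, t < M ∧ V (Function.update m l (t : ℤ)) = w) →
          (Z.card : ℝ) ≤ C * (M : ℝ) ^ (1 - δ) := by
  obtain ⟨C, δ, hC, hδ, hδ1, h⟩ := one_var H.free H.tf D H.one H.coef J
  refine ⟨C, δ, hC, hδ, hδ1, fun V hV m l w => ?_⟩
  obtain ⟨L, hLJ, hL, hLV⟩ := hV.slice m l
  rcases h L hLJ hL w with h1 | h1
  · left
    intro t
    rw [hLV, h1]
  · right
    intro M hM Z hZ
    apply h1 M hM Z
    intro t ht
    refine ⟨(hZ t ht).1, ?_⟩
    rw [← hLV]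
    exact (hZ t ht).2

/-- counting along fibers -/
theorem cnt_fiber {N' : Fin k → ℕ} (hN : ∀ j, 1 ≤ N' j) (l : Fin k) (Q : (Fin k → ℕ) → Prop)
    {C δ : ℝ} (h : ∀ n : Fin k → ℕ, ∀ Z : Finset ℕ,
      (∀ t ∈ Z, t < N' l ∧ Q (Function.update n l t)) → (Z.card : ℝ) ≤ C * (N' l : ℝ) ^ (1 - δ)) :
    cnt N' Q ≤ C * (vol N' * (N' l : ℝ) ^ (-δ)) := by
  classical
  have hl : (0 : ℝ) < N' l := by exact_mod_cast hN l
  have h1 := sum_fiber N' l (fun n => if Q n then (1 : ℝ) else 0)
  rw [← cnt_eq_sum] at h1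
  have h2 : ∑ n ∈ bxs N', ∑ t ∈ Finset.range (N' l), (if Q (Function.update n l t) then (1 : ℝ)
      else 0) ≤ ∑ _n ∈ bxs N', C * (N' l : ℝ) ^ (1 - δ) := by
    apply Finset.sum_le_sum
    intro n _
    have h3 : ∑ t ∈ Finset.range (N' l), (if Q (Function.update n l t) then (1 : ℝ) else 0) =
        (((Finset.range (N' l)).filter fun t => Q (Function.update n l t)).card : ℝ) := by
      rw [Finset.card_filter]
      push_cast
      rfl
    rw [h3]
    apply h n
    intro t ht
    rw [Finset.mem_filter, Finset.mem_range] at ht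
    exact ht
  rw [h1, Finset.sum_const, nsmul_eq_mul, card_bxs] at h2
  have h4 : (N' l : ℝ) ^ (1 - δ) = N' l * (N' l : ℝ) ^ (-δ) := by
    rw [sub_eq_add_neg, Real.rpow_add hl, Real.rpow_one]
  rw [h4] at h2
  have h5 : (N' l : ℝ) * cnt N' Q ≤ (N' l : ℝ) * (C * (vol N' * (N' l : ℝ) ^ (-δ))) := by
    refine h2.trans (le_of_eq ?_)
    ring
  exact le_of_mul_le_mul_left h5 hl

/-- coordinates in `s` from `y`, the others from `x` -/
def mx (s : Finset (Fin k)) (x y : Fin k → ℤ) : Fin k → ℤ := fun j => if j ∈ s then y j else x j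

theorem mx_insert {s : Finset (Fin k)} {l : Fin k} (hl : l ∉ s) (x y : Fin k → ℤ) :
    mx (insert l s) x y = Function.update (mx s x y) l (y l) := by
  funext j
  unfold mx
  by_cases hj : j = l
  · subst hj
    rw [Function.update_self, if_pos (Finset.mem_insert_self _ _)]
  · rw [Function.update_of_ne hj]
    simp only [Finset.mem_insert, hj, false_or]

theorem mx_update_left {s : Finset (Fin k)} {l : Fin k} (hl : l ∉ s) (x y : Fin k → ℤ) (t : ℤ) :
    mx s (Function.update x l t) y = Function.update (mx s x y) l t := by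
  funext j
  unfold mx
  by_cases hj : j = l
  · subst hj
    rw [Function.update_self, if_neg hl, Function.update_self]
  · rw [Function.update_of_ne hj, Function.update_of_ne hj]

theorem nz_update (n : Fin k → ℕ) (l : Fin k) (t : ℕ) :
    nz (Function.update n l t) = Function.update (nz n) l (t : ℤ) := by
  funext j
  unfold nz
  by_cases hj : j = l
  · subst hj
    rw [Function.update_self, Function.update_self]
  · rw [Function.update_of_ne hj, Function.update_of_ne hj]

theorem mx_nz_update {s : Finset (Fin k)} {l : Fin k} (hl : l ∉ s) (x : Fin k → ℤ)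
    (n : Fin k → ℕ) (t : ℕ) : mx s x (nz (Function.update n l t)) = mx s x (nz n) := by
  funext j
  unfold mx
  by_cases hj : j ∈ s
  · have : j ≠ l := fun h => hl (h ▸ hj)
    rw [if_pos hj, if_pos hj, nz_update, Function.update_of_ne this]
  · rw [if_neg hj, if_neg hj]

theorem rpow_neg_le {n : ℕ} (hn : 1 ≤ n) {δ δ' : ℝ} (h : δ' ≤ δ) :
    (n : ℝ) ^ (-δ) ≤ (n : ℝ) ^ (-δ') :=
  Real.rpow_le_rpow_of_exponent_le (by exact_mod_cast hn) (by linarith)

/-- zeros of exponential polynomials of several variables -/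
theorem zeros {β : ℕ} (H : Hyp Φ β) (D : ℕ) (s : Finset (Fin k)) : ∀ J : ℕ,
    ∃ C δ : ℝ, 0 < C ∧ 0 < δ ∧ ∀ V : (Fin k → ℤ) → N, Cls Φ J D β V → ∀ x : Fin k → ℤ,
      (∀ y : Fin k → ℤ, V (mx s x y) = 0) ∨ ∀ N' : Fin k → ℕ, (∀ j, 1 ≤ N' j) →
        cnt N' (fun n => V (mx s x (nz n)) = 0) ≤ C * (vol N' * ∑ j, (N' j : ℝ) ^ (-δ)) := by
  classical
  induction s using Finset.induction_on with
  | empty =>
    intro J
    refine ⟨1, 1, one_pos, one_pos, fun V _ x => ?_⟩
    have e : ∀ y, mx ∅ x y = x := by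
      intro y
      funext j
      simp [mx]
    by_cases h : V x = 0
    · left
      intro y
      rw [e, h]
    · right
      intro N' hN
      have h1 : cnt N' (fun n => V (mx ∅ x (nz n)) = 0) = 0 := by
        rw [cnt_eq_sum]
        apply Finset.sum_eq_zero
        intro n _
        rw [if_neg]
        rw [e]
        exact h
      rw [h1, one_mul]
      exact mul_nonneg (vol_nonneg _) (Finset.sum_nonneg fun j _ => by positivity)
  | insert l s hl ih =>
    intro J
    obtain ⟨C₁, δ₁, hC₁, hδ₁, h1⟩ := ih J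
    obtain ⟨C₂, δ₂, hC₂, hδ₂, hδ₂1, h2⟩ := slice_bound (k := k) H J D
    refine ⟨C₁ + C₂, min δ₁ δ₂, by positivity, lt_min hδ₁ hδ₂, fun V hV x => ?_⟩
    by_cases hall : ∀ (y : Fin k → ℤ) (t : ℤ), V (Function.update (mx s x y) l t) = 0
    · left
      intro y
      rw [mx_insert hl]
      exact hall _ _
    push Not at hall
    obtain ⟨y₀, t₀, hyt⟩ := hall
    right
    intro N' hN
    have h3 : cnt N' (fun n => V (Function.update (mx s x (nz n)) l t₀) = 0) ≤
        C₁ * (vol N' * ∑ j, (N' j : ℝ) ^ (-δ₁)) := by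
      rcases h1 V hV (Function.update x l t₀) with h | h
      · exfalso
        apply hyt
        rw [← mx_update_left hl]
        exact h y₀
      · have h4 := h N' hN
        simp only [mx_update_left hl] at h4
        exact h4
    have h4 : cnt N' (fun n => V (Function.update (mx s x (nz n)) l t₀) ≠ 0 ∧
        V (mx (insert l s) x (nz n)) = 0) ≤ C₂ * (vol N' * (N' l : ℝ) ^ (-δ₂)) := by
      apply cnt_fiber hN l
      intro n Z hZ
      rcases Z.eq_empty_or_nonempty with hZe | ⟨t₁, ht₁⟩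
      · rw [hZe, Finset.card_empty, Nat.cast_zero]
        positivity
      have h5 := (hZ t₁ ht₁).2.1
      rw [mx_nz_update hl] at h5
      rcases h2 V hV (mx s x (nz n)) l 0 with h | h
      · exact absurd (h t₀) h5
      · apply h (N' l) (hN l) Z
        intro t ht
        refine ⟨(hZ t ht).1, ?_⟩
        have h6 := (hZ t ht).2.2
        rw [mx_insert hl, mx_nz_update hl, nz_update, Function.update_self] at h6
        exact h6
    have h5 : cnt N' (fun n => V (mx (insert l s) x (nz n)) = 0) ≤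
        cnt N' (fun n => V (Function.update (mx s x (nz n)) l t₀) = 0) +
        cnt N' (fun n => V (Function.update (mx s x (nz n)) l t₀) ≠ 0 ∧
          V (mx (insert l s) x (nz n)) = 0) := by
      rw [cnt_eq_sum, cnt_eq_sum, cnt_eq_sum, ← Finset.sum_add_distrib]
      apply Finset.sum_le_sum
      intro n _
      by_cases ha : V (mx (insert l s) x (nz n)) = 0
      · by_cases hb : V (Function.update (mx s x (nz n)) l t₀) = 0
        · rw [if_pos ha, if_pos hb]
          have : (0 : ℝ) ≤ if V (Function.update (mx s x (nz n)) l t₀) ≠ 0 ∧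
            V (mx (insert l s) x (nz n)) = 0 then 1 else 0 := by split_ifs <;> norm_num
          linarith
        · rw [if_pos ha, if_neg hb, if_pos ⟨hb, ha⟩]
          norm_num
      · rw [if_neg ha]
        have h6 : (0 : ℝ) ≤ if V (Function.update (mx s x (nz n)) l t₀) = 0 then 1 else 0 := by
          split_ifs <;> norm_num
        have h7 : (0 : ℝ) ≤ if V (Function.update (mx s x (nz n)) l t₀) ≠ 0 ∧
            V (mx (insert l s) x (nz n)) = 0 then 1 else 0 := by split_ifs <;> norm_num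
        linarith
    refine h5.trans ((add_le_add h3 h4).trans ?_)
    have hv := vol_nonneg N'
    have h6 : ∑ j, (N' j : ℝ) ^ (-δ₁) ≤ ∑ j, (N' j : ℝ) ^ (-min δ₁ δ₂) :=
      Finset.sum_le_sum fun j _ => rpow_neg_le (hN j) (min_le_left _ _)
    have h7 : (N' l : ℝ) ^ (-δ₂) ≤ ∑ j, (N' j : ℝ) ^ (-min δ₁ δ₂) :=
      (rpow_neg_le (hN l) (min_le_right _ _)).trans
        (Finset.single_le_sum (f := fun j => (N' j : ℝ) ^ (-min δ₁ δ₂))
          (fun j _ => by positivity) (Finset.mem_univ l))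
    rw [add_mul]
    exact add_le_add
      (mul_le_mul_of_nonneg_left (mul_le_mul_of_nonneg_left h6 hv) hC₁.le)
      (mul_le_mul_of_nonneg_left (mul_le_mul_of_nonneg_left h7 hv) hC₂.le)

/-- **The dichotomy for exponential polynomials.** -/
theorem dich_cls {β : ℕ} (H : Hyp Φ β) {J D : ℕ} {V : (Fin k → ℤ) → N} (hV : Cls Φ J D β V)
    (l : Fin k) : (∀ (m : Fin k → ℤ) (t : ℤ), V (Function.update m l t) = V m) ∨
      FewB l (fun n => V (nz n)) := by
  classical
  by_cases hall : ∀ (m : Fin k → ℤ) (t : ℤ), V (Function.update m l t) = V m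
  · exact Or.inl hall
  right
  push Not at hall
  obtain ⟨m₀, t₀, hmt⟩ := hall
  obtain ⟨C₁, δ₁, hC₁, hδ₁, h1⟩ := zeros H D (Finset.univ : Finset (Fin k)) (J + J)
  obtain ⟨C₂, δ₂, hC₂, hδ₂, hδ₂1, h2⟩ := slice_bound (k := k) H J D
  have hW : Cls Φ (J + J) D β (fun m => V (Function.update m l t₀) -
      V (Function.update m l (m₀ l))) := (hV.freeze H.one l t₀).sub (hV.freeze H.one l (m₀ l))
  have emx : ∀ y : Fin k → ℤ, mx Finset.univ 0 y = y := by
    intro y
    funext j
    simp [mx]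
  refine ⟨{n | V (Function.update (nz n) l t₀) - V (Function.update (nz n) l (m₀ l)) ≠ 0},
    C₁ + C₂, min δ₁ δ₂, by positivity, lt_min hδ₁ hδ₂, ?_, ?_⟩
  · intro c N' hN
    have h3 : cnt N' (fun n => n ∈ {n | V (Function.update (nz n) l t₀) -
        V (Function.update (nz n) l (m₀ l)) ≠ 0} ∧ V (nz n) = c) ≤
        C₂ * (vol N' * (N' l : ℝ) ^ (-δ₂)) := by
      apply cnt_fiber hN l
      intro n Z hZ
      rcases Z.eq_empty_or_nonempty with hZe | ⟨t₁, ht₁⟩
      · rw [hZe, Finset.card_empty, Nat.cast_zero]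
        positivity
      have h5 : V (Function.update (nz (Function.update n l t₁)) l t₀) -
        V (Function.update (nz (Function.update n l t₁)) l (m₀ l)) ≠ 0 := (hZ t₁ ht₁).2.1
      rw [nz_update, Function.update_idem, Function.update_idem] at h5
      rcases h2 V hV (nz n) l c with h | h
      · rw [h, h, sub_self] at h5
        exact absurd rfl h5
      · apply h (N' l) (hN l) Z
        intro t ht
        refine ⟨(hZ t ht).1, ?_⟩
        rw [← nz_update]
        exact (hZ t ht).2.2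
    refine h3.trans ?_
    have hv := vol_nonneg N'
    have h4 := rpow_neg_le (hN l) (min_le_right δ₁ δ₂)
    have h5 : (0 : ℝ) ≤ vol N' * (N' l : ℝ) ^ (-min δ₁ δ₂) := by positivity
    calc C₂ * (vol N' * (N' l : ℝ) ^ (-δ₂)) ≤ C₂ * (vol N' * (N' l : ℝ) ^ (-min δ₁ δ₂)) :=
          mul_le_mul_of_nonneg_left (mul_le_mul_of_nonneg_left h4 hv) hC₂.le
      _ ≤ (C₁ + C₂) * (vol N' * (N' l : ℝ) ^ (-min δ₁ δ₂)) :=
          mul_le_mul_of_nonneg_right (by linarith) h5
  · intro N' hN
    have h3 : cnt N' (fun n => n ∉ {n | V (Function.update (nz n) l t₀) -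
        V (Function.update (nz n) l (m₀ l)) ≠ 0}) ≤ C₁ * (vol N' * ∑ j, (N' j : ℝ) ^ (-δ₁)) := by
      rcases h1 _ hW 0 with h | h
      · exfalso
        have h4 := h m₀
        rw [emx, Function.update_eq_self] at h4
        exact hmt (sub_eq_zero.mp h4)
      · refine (cnt_mono fun n hn => ?_).trans (h N' hN)
        rw [emx]
        by_contra hcon
        exact hn hcon
    refine h3.trans ?_
    have hv := vol_nonneg N'
    have h4 : ∑ j, (N' j : ℝ) ^ (-δ₁) ≤ ∑ j, (N' j : ℝ) ^ (-min δ₁ δ₂) :=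
      Finset.sum_le_sum fun j _ => rpow_neg_le (hN j) (min_le_left _ _)
    have h5 : (0 : ℝ) ≤ vol N' * ∑ j, (N' j : ℝ) ^ (-min δ₁ δ₂) :=
      mul_nonneg hv (Finset.sum_nonneg fun j _ => by positivity)
    calc C₁ * (vol N' * ∑ j, (N' j : ℝ) ^ (-δ₁)) ≤
          C₁ * (vol N' * ∑ j, (N' j : ℝ) ^ (-min δ₁ δ₂)) :=
          mul_le_mul_of_nonneg_left (mul_le_mul_of_nonneg_left h4 hv) hC₁.le
      _ ≤ (C₁ + C₂) * (vol N' * ∑ j, (N' j : ℝ) ^ (-min δ₁ δ₂)) :=
          mul_le_mul_of_nonneg_right (by linarith) h5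

end

end Pool.Agent.TH635.AA
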