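import Pool.Agent.TH635.AA.Pol

/-!
# Zeros of exponential polynomials with polynomial exponents
-/

set_option autoImplicit false

namespace Pool.Agent.TH635.AA

open Finset

section count

/-- Pairs of elements of a finite set of integers. -/
theorem card_sq_le {L : ℕ} (Z : Finset ℕ) (hZ : ∀ t ∈ Z, t < L) :
    Z.card ^ 2 ≤ Z.card + 2 * ∑ h ∈ Finset.Ico 1 L, (Z.filter fun t => t + h ∈ Z).card := by
  classical
  have h1 : ((Z ×ˢ Z).filter fun x => x.1 < x.2).card ≤
      ∑ h ∈ Finset.Ico 1 L, (Z.filter fun t => t + h ∈ Z).card := by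
    rw [← Finset.card_sigma]
    apply Finset.card_le_card_of_injOn (fun x => (⟨x.2 - x.1, x.1⟩ : Σ _ : ℕ, ℕ))
    · intro x hx
      simp only [Finset.coe_filter, Finset.mem_product] at hx
      obtain ⟨⟨h1, h2⟩, h3⟩ := hx
      have h4 := hZ _ h2
      simp only [Finset.coe_sigma, Set.mem_sigma_iff, Finset.coe_Ico, Set.mem_Ico, Finset.coe_filter]
      refine ⟨⟨by omega, by omega⟩, h1, ?_⟩
      rw [Nat.add_sub_cancel' h3.le]
      exact h2
    · intro x hx y hy hxy
      simp only [Finset.coe_filter, Finset.mem_product] at hx hy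
      have hx3 := hx.2
      have hy3 := hy.2
      simp only [Sigma.mk.injEq, heq_eq_eq] at hxy
      obtain ⟨e1, e2⟩ := hxy
      ext
      · exact e2
      · omega
  have h2 : ((Z ×ˢ Z).filter fun x => x.2 < x.1).card ≤
      ((Z ×ˢ Z).filter fun x => x.1 < x.2).card := by
    apply Finset.card_le_card_of_injOn Prod.swap
    · intro x hx
      simp only [Finset.coe_filter, Finset.mem_product] at hx
      simp only [Finset.coe_filter, Finset.mem_product, Prod.fst_swap, Prod.snd_swap]
      exact ⟨⟨hx.1.2, hx.1.1⟩, hx.2⟩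
    · exact Prod.swap_injective.injOn
  have h3 : ((Z ×ˢ Z).filter fun x => x.1 = x.2).card ≤ Z.card := by
    apply Finset.card_le_card_of_injOn Prod.fst
    · intro x hx
      simp only [Finset.coe_filter, Finset.mem_product] at hx
      exact hx.1.1
    · intro x hx y hy hxy
      simp only [Finset.coe_filter, Finset.mem_product] at hx hy
      have hx3 : x.1 = x.2 := hx.2
      have hy3 : y.1 = y.2 := hy.2
      ext
      · exact hxy
      · rw [← hx3, ← hy3]
        exact hxy
  have h4 : (Z ×ˢ Z).card ≤ ((Z ×ˢ Z).filter fun x => x.1 = x.2).card +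
      (((Z ×ˢ Z).filter fun x => x.1 < x.2).card + ((Z ×ˢ Z).filter fun x => x.2 < x.1).card) := by
    have hsub : Z ×ˢ Z ⊆ ((Z ×ˢ Z).filter fun x => x.1 = x.2) ∪
        (((Z ×ˢ Z).filter fun x => x.1 < x.2) ∪ ((Z ×ˢ Z).filter fun x => x.2 < x.1)) := by
      intro x hx
      simp only [Finset.mem_union, Finset.mem_filter]
      rcases lt_trichotomy x.1 x.2 with h | h | h
      · exact Or.inr (Or.inl ⟨hx, h⟩)
      · exact Or.inl ⟨hx, h⟩
      · exact Or.inr (Or.inr ⟨hx, h⟩)
    refine (Finset.card_le_card hsub).trans ((Finset.card_union_le _ _).trans ?_)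
    exact Nat.add_le_add_left (Finset.card_union_le _ _) _
  rw [Finset.card_product] at h4
  rw [sq]
  omega

end count

noncomputable section

open Classical in
/-- families of coefficients -/
abbrev Fam (A N : Type*) [AddCommGroup A] [AddCommGroup N] := (ℤ → A) →₀ (ℤ → N)

variable {A N : Type*} [AddCommGroup A] [AddCommGroup N] (Φ : Act A N)

/-- the function `∑ e(p(t)) b(t)` -/
def ev (B : Fam A N) (t : ℤ) : N := B.sum fun p b => Φ.e (p t) (b t)

theorem ev_add (B B' : Fam A N) (t : ℤ) : ev Φ (B + B') t = ev Φ B t + ev Φ B' t := by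
  unfold ev
  rw [Finsupp.sum_add_index']
  · intro p
    simp
  · intro p b b'
    rw [Pi.add_apply, map_add]

theorem ev_sub (B B' : Fam A N) (t : ℤ) : ev Φ (B - B') t = ev Φ B t - ev Φ B' t := by
  have h := ev_add Φ (B - B') B' t
  rw [sub_add_cancel] at h
  rw [h, add_sub_cancel_right]

theorem ev_single (p : ℤ → A) (b : ℤ → N) (t : ℤ) :
    ev Φ (Finsupp.single p b) t = Φ.e (p t) (b t) := by
  unfold ev
  rw [Finsupp.sum_single_index]
  simp

theorem ev_zero (t : ℤ) : ev Φ (0 : Fam A N) t = 0 := by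
  unfold ev
  rw [Finsupp.sum_zero_index]

theorem ev_sum {ι : Type*} (s : Finset ι) (B : ι → Fam A N) (t : ℤ) :
    ev Φ (∑ i ∈ s, B i) t = ∑ i ∈ s, ev Φ (B i) t := by
  classical
  induction s using Finset.induction_on with
  | empty => simp [ev_zero]
  | insert a s ha ih => rw [Finset.sum_insert ha, Finset.sum_insert ha, ev_add, ih]

/-- shift of types -/
def tau (h : ℤ) (p : ℤ → A) : ℤ → A := fun t => p (t + h) - p h

theorem tau_inj {h : ℤ} {s s' : ℤ → A} (h0 : s 0 = 0) (h0' : s' 0 = 0)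
    (e : tau h s = tau h s') : s = s' := by
  have h1 := congrFun e (-h)
  simp only [tau, neg_add_cancel, h0, h0', zero_sub, neg_inj] at h1
  funext t
  have h2 := congrFun e (t - h)
  simp only [tau, sub_add_cancel, h1] at h2
  exact sub_left_injective h2

theorem tau_zero (h : ℤ) : tau h (0 : ℤ → A) = 0 := by
  funext t
  simp [tau]

theorem tau_norm (h : ℤ) (s : ℤ → A) : tau h s 0 = 0 := by simp [tau]

theorem Pol_tau {n : ℕ} {s : ℤ → A} (h : ℤ) (hs : Pol (n + 1) s) : Pol (n + 1) (tau h s) :=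
  Pol_sub (Pol_shift hs h) (Pol_const (by omega) _)

theorem Pol_of_tau {n : ℕ} {s : ℤ → A} {h : ℤ} (hs : Pol (n + 1) (tau h s)) : Pol (n + 1) s := by
  have h1 := Pol_add (Pol_shift hs (-h)) (Pol_const (n := n + 1) (by omega) (s h))
  have e : (fun t => tau h s (t + -h) + s h) = s := by
    funext t
    simp [tau]
  rwa [e] at h1

theorem dd_tau {i : ℕ} (hi : 1 ≤ i) {s : ℤ → A} (h : ℤ) (hs : Pol (i + 1) s) :
    dd i (tau h s) 0 = dd i s 0 := by
  unfold tau
  rw [dd_sub i (fun t => s (t + h)) (fun _ => s h), dd_shift, dd_const hi, sub_zero]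
  exact dd_const_of_Pol hs _ _

/-- shift of families -/
def shB (h : ℤ) (B : Fam A N) : Fam A N :=
  ∑ s ∈ B.support, Finsupp.single (tau h s) (fun t => Φ.e (s h) (B s (t + h)))

theorem ev_shB (h : ℤ) (B : Fam A N) (t : ℤ) : ev Φ (shB Φ h B) t = ev Φ B (t + h) := by
  unfold shB
  rw [ev_sum, ev, Finsupp.sum]
  apply Finset.sum_congr rfl
  intro s _
  rw [ev_single, ← Φ.add]
  congr 2
  simp [tau]

/-- differences of families -/
def difB (h : ℤ) (B : Fam A N) : Fam A N := shB Φ h B - B

theorem ev_difB (h : ℤ) (B : Fam A N) (t : ℤ) :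
    ev Φ (difB Φ h B) t = ev Φ B (t + h) - ev Φ B t := by
  rw [difB, ev_sub, ev_shB]

/-- normalised types and polynomial coefficients -/
def Gd (D β : ℕ) (B : Fam A N) : Prop :=
  ∀ p ∈ B.support, p 0 = 0 ∧ Pol (D + 1) p ∧ Pol β (B p)

variable {Φ}

theorem shB_at {D β : ℕ} {B : Fam A N} (hB : Gd D β B) {h : ℤ} {s : ℤ → A} (hs : s ∈ B.support) :
    shB Φ h B (tau h s) = fun t => Φ.e (s h) (B s (t + h)) := by
  classical
  unfold shB
  rw [Finsupp.finsetSum_apply, Finset.sum_eq_single s]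
  · rw [Finsupp.single_eq_same]
  · intro s' hs' hne
    rw [Finsupp.single_eq_of_ne]
    intro e
    exact hne (tau_inj (hB s' hs').1 (hB s hs).1 e.symm)
  · intro h
    exact absurd hs h

theorem shB_off {B : Fam A N} {h : ℤ} {p : ℤ → A} (hp : ∀ s ∈ B.support, tau h s ≠ p) :
    shB Φ h B p = 0 := by
  classical
  unfold shB
  rw [Finsupp.finsetSum_apply]
  apply Finset.sum_eq_zero
  intro s hs
  rw [Finsupp.single_eq_of_ne]
  exact fun e => hp s hs e.symm

theorem shB_zero_type {D β : ℕ} {B : Fam A N} (hB : Gd D β B) (h : ℤ) :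
    shB Φ h B 0 = fun t => B 0 (t + h) := by
  classical
  by_cases h0 : (0 : ℤ → A) ∈ B.support
  · have h1 := shB_at (Φ := Φ) hB (h := h) h0
    rw [tau_zero] at h1
    rw [h1]
    funext t
    rw [Pi.zero_apply, Φ.zero]
  · rw [shB_off]
    · rw [Finsupp.notMem_support_iff.mp h0]
      rfl
    · intro s hs e
      apply h0
      have : s = 0 := tau_inj (h := h) (hB s hs).1 rfl (by rw [e, tau_zero])
      rwa [← this]

theorem difB_support {B : Fam A N} {h : ℤ} [DecidableEq (ℤ → A)] :
    (difB Φ h B).support ⊆ B.support ∪ B.support.image (tau h) := by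
  intro p hp
  by_contra hcon
  rw [Finset.mem_union, not_or] at hcon
  rw [Finsupp.mem_support_iff] at hp
  apply hp
  rw [difB, Finsupp.sub_apply, Finsupp.notMem_support_iff.mp hcon.1, shB_off, sub_zero]
  intro s hs e
  exact hcon.2 (Finset.mem_image.mpr ⟨s, hs, e⟩)

theorem Gd_difB {D β : ℕ} {B : Fam A N} (hB : Gd D β B) (h : ℤ) : Gd D β (difB Φ h B) := by
  classical
  intro p hp
  have h1 := difB_support hp
  rw [Finset.mem_union, Finset.mem_image] at h1
  refine ⟨?_, ?_, ?_⟩
  · rcases h1 with h1 | ⟨s, _, rfl⟩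
    · exact (hB p h1).1
    · exact tau_norm h s
  · rcases h1 with h1 | ⟨s, hs, rfl⟩
    · exact (hB p h1).2.1
    · exact Pol_tau h (hB s hs).2.1
  · have hBp : ∀ p, Pol β (B p) := by
      intro p
      by_cases hp : p ∈ B.support
      · exact (hB p hp).2.2
      · rw [Finsupp.notMem_support_iff.mp hp]
        exact Pol_zero_fun β
    have h2 : Pol β (shB Φ h B p) := by
      by_cases hs : ∃ s ∈ B.support, tau h s = p
      · obtain ⟨s, hs, rfl⟩ := hs
        rw [shB_at hB hs]
        exact Pol_hom (Φ.e (s h)) (Pol_shift (hBp s) h)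
      · push Not at hs
        rw [shB_off hs]
        exact Pol_zero_fun β
    exact Pol_sub h2 (hBp p)

/-- exceptional shifts -/
def bad (S : Finset (ℤ → A)) (h : ℤ) : Prop := ∃ s ∈ S, ∃ p ∈ S, s ≠ p ∧ tau h s = p

theorem bad_card (htf : ∀ (n : ℤ) (a : A), n • a = 0 → n = 0 ∨ a = 0) {D : ℕ}
    {S : Finset (ℤ → A)} (hS : ∀ p ∈ S, p 0 = 0 ∧ Pol (D + 1) p) (L : ℕ)
    [DecidablePred fun h : ℕ => bad S (h : ℤ)] :
    ((Finset.Ico 1 L).filter fun h : ℕ => bad S (h : ℤ)).card ≤ S.card ^ 2 := by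
  classical
  have hsub : ((Finset.Ico 1 L).filter fun h : ℕ => bad S (h : ℤ)) ⊆
      (S ×ˢ S).biUnion fun x => (Finset.Ico 1 L).filter fun h : ℕ =>
        x.1 ≠ x.2 ∧ tau (h : ℤ) x.1 = x.2 := by
    intro h hh
    rw [Finset.mem_filter] at hh
    obtain ⟨h1, s, hs, p, hp, hne, e⟩ := hh
    rw [Finset.mem_biUnion]
    exact ⟨(s, p), Finset.mem_product.mpr ⟨hs, hp⟩, Finset.mem_filter.mpr ⟨h1, hne, e⟩⟩
  refine (Finset.card_le_card hsub).trans (Finset.card_biUnion_le.trans ?_)
  calc ∑ x ∈ S ×ˢ S, ((Finset.Ico 1 L).filter fun h : ℕ =>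
        x.1 ≠ x.2 ∧ tau (h : ℤ) x.1 = x.2).card ≤ ∑ x ∈ S ×ˢ S, 1 := by
        apply Finset.sum_le_sum
        intro x hx
        rw [Finset.card_le_one]
        intro h hh h' hh'
        rw [Finset.mem_filter] at hh hh'
        obtain ⟨_, hne, e⟩ := hh
        obtain ⟨_, _, e'⟩ := hh'
        by_contra hhh
        have hx1 := hS x.1 (Finset.mem_product.mp hx).1
        have h1 : ∀ t, x.1 (t + ((h : ℤ) - h')) - x.1 t = x.1 h - x.1 h' := by
          intro t
          have h2 := congrFun (e.trans e'.symm) (t - h')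
          simp only [tau, sub_add_cancel] at h2
          have h3 : t - (h' : ℤ) + h = t + ((h : ℤ) - h') := by ring
          rw [h3] at h2
          have h4 : x.1 (t + ((h : ℤ) - h')) = x.1 t - x.1 h' + x.1 h := by
            rw [← h2]
            abel
          rw [h4]
          abel
        have h2 := aff_of_diff htf hx1.2 (h := (h : ℤ) - h') (by omega) h1
        apply hne
        rw [← e]
        have h3 : ∀ t, x.1 (t + 1) - x.1 t = dd 1 x.1 0 := fun t => dd_const_of_Pol h2 t 0
        have h4 := arith h3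
        rw [hx1.1] at h4
        funext t
        show x.1 t = x.1 (t + h) - x.1 h
        rw [h4 t, h4 (t + h), h4 h, add_smul]
        abel
    _ = S.card ^ 2 := by
        rw [Finset.sum_const, Finset.card_product, smul_eq_mul, mul_one, sq]

theorem difB_ne (hfr : Free Φ) (htf : ∀ (n : ℤ) (a : A), n • a = 0 → n = 0 ∨ a = 0)
    {D β : ℕ} {B : Fam A N}
    (hB : Gd D β B) {h : ℤ} (hh : h ≠ 0) (hbad : ¬ bad B.support h) {p : ℤ → A}
    (hp : p ∈ B.support) (hp0 : p ≠ 0) : p ∈ (difB Φ h B).support := by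
  classical
  rw [Finsupp.mem_support_iff]
  intro h0
  have h1 : shB Φ h B p = B p := by
    rw [difB, Finsupp.sub_apply] at h0
    exact sub_eq_zero.mp h0
  have hBp : B p ≠ 0 := Finsupp.mem_support_iff.mp hp
  have h2 : ∃ s ∈ B.support, tau h s = p := by
    by_contra hcon
    push Not at hcon
    rw [shB_off hcon] at h1
    exact hBp h1.symm
  obtain ⟨s, hs, hsp⟩ := h2
  have h3 : s = p := by
    by_contra hne
    exact hbad ⟨s, hs, p, hp, hne, hsp⟩
  subst h3
  have h4 := shB_at (Φ := Φ) hB (h := h) hs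
  rw [hsp, h1] at h4
  have h5 : s h ≠ 0 := by
    intro hsh
    have h6 : ∀ t, s (t + h) - s t = 0 := by
      intro t
      have := congrFun hsp t
      simp only [tau, hsh, sub_zero] at this
      rw [this, sub_self]
    have h7 : Pol 1 s := by
      by_contra h8
      exact diff_ne htf (hB s hs).2.1 h8 hh h6
    apply hp0
    funext t
    rw [Pol_one_iff.mp h7 t, (hB s hs).1]
    rfl
  have h6 := Φ.mix hfr h5 (hB s hs).2.2 (h := h) fun t => (congrFun h4 t).symm
  exact hBp (funext h6)

/-- leading coefficients in degree `i` -/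
def tops (i : ℕ) (S : Finset (ℤ → A)) : Finset A := by
  classical
  exact ((S.filter fun p => Pol (i + 1) p).image fun p => dd i p 0).erase 0

theorem mem_tops {i : ℕ} {S : Finset (ℤ → A)} {c : A} :
    c ∈ tops i S ↔ c ≠ 0 ∧ ∃ p ∈ S, Pol (i + 1) p ∧ dd i p 0 = c := by
  classical
  unfold tops
  rw [Finset.mem_erase, Finset.mem_image]
  simp only [Finset.mem_filter, and_assoc]

theorem tops_card {i : ℕ} {S : Finset (ℤ → A)} : (tops i S).card ≤ S.card := by
  classical
  unfold tops
  exact ((Finset.card_erase_le).trans Finset.card_image_le).trans (Finset.card_filter_le _ _)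

theorem tops_difB (hfr : Free Φ) (htf : ∀ (n : ℤ) (a : A), n • a = 0 → n = 0 ∨ a = 0)
    {D β : ℕ} {B : Fam A N}
    (hB : Gd D β B) {h : ℤ} (hh : h ≠ 0) (hbad : ¬ bad B.support h) {i : ℕ} (hi : 1 ≤ i) :
    tops i (difB Φ h B).support = tops i B.support := by
  classical
  ext c
  rw [mem_tops, mem_tops]
  refine and_congr_right fun hc => ?_
  constructor
  · rintro ⟨p, hp, hpp, hpc⟩
    have h1 := difB_support hp
    rw [Finset.mem_union, Finset.mem_image] at h1
    rcases h1 with h1 | ⟨s, hs, rfl⟩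
    · exact ⟨p, h1, hpp, hpc⟩
    · have hs' := Pol_of_tau hpp
      exact ⟨s, hs, hs', by rw [← hpc, dd_tau hi h hs']⟩
  · rintro ⟨s, hs, hpp, hpc⟩
    refine ⟨s, difB_ne hfr htf hB hh hbad hs ?_, hpp, hpc⟩
    rintro rfl
    apply hc
    rw [← hpc]
    exact dd_zero_fun i 0

/-- translation of types -/
def traB (s₁ : ℤ → A) (B : Fam A N) : Fam A N := B.mapDomain fun s => s - s₁

theorem sub_inj' (s₁ : ℤ → A) : Function.Injective fun s : ℤ → A => s - s₁ := fun _ _ h =>
  sub_left_injective h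

theorem ev_traB (s₁ : ℤ → A) (B : Fam A N) (t : ℤ) :
    ev Φ (traB s₁ B) t = Φ.e (-s₁ t) (ev Φ B t) := by
  unfold ev traB
  rw [Finsupp.sum_mapDomain_index, Finsupp.sum, Finsupp.sum, map_sum]
  · apply Finset.sum_congr rfl
    intro s _
    rw [← Φ.add, Pi.sub_apply, sub_eq_neg_add]
  · intro p
    simp
  · intro p b b'
    rw [Pi.add_apply, map_add]

theorem traB_support (s₁ : ℤ → A) (B : Fam A N) [DecidableEq (ℤ → A)] :
    (traB s₁ B).support = B.support.image fun s => s - s₁ :=
  Finsupp.mapDomain_support_of_injective (sub_inj' s₁) B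

theorem traB_at (s₁ : ℤ → A) (B : Fam A N) (s : ℤ → A) : traB s₁ B (s - s₁) = B s :=
  Finsupp.mapDomain_apply (sub_inj' s₁) B s

theorem Gd_traB {D β : ℕ} {B : Fam A N} (hB : Gd D β B) {s₁ : ℤ → A} (hs₁ : s₁ ∈ B.support) :
    Gd D β (traB s₁ B) := by
  classical
  intro p hp
  rw [traB_support, Finset.mem_image] at hp
  obtain ⟨s, hs, rfl⟩ := hp
  refine ⟨?_, Pol_sub (hB s hs).2.1 (hB s₁ hs₁).2.1, ?_⟩
  · rw [Pi.sub_apply, (hB s hs).1, (hB s₁ hs₁).1, sub_zero]
  · rw [traB_at]
    exact (hB s hs).2.2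

theorem tops_traB_high {B : Fam A N} {s₁ : ℤ → A} {e i : ℕ} (he : Pol (e + 1) s₁) (hi : e < i) :
    tops i (traB s₁ B).support = tops i B.support := by
  classical
  have h1 : Pol i s₁ := Pol_mono (by omega) he
  have h2 : Pol (i + 1) s₁ := Pol_succ h1
  ext c
  rw [mem_tops, mem_tops, traB_support]
  refine and_congr_right fun hc => ?_
  simp only [Finset.mem_image]
  constructor
  · rintro ⟨_, ⟨s, hs, rfl⟩, hpp, hpc⟩
    have h3 : Pol (i + 1) s := by
      have := Pol_add hpp h2
      have e : (fun t => (s - s₁) t + s₁ t) = s := by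
        funext t
        simp
      rwa [e] at this
    refine ⟨s, hs, h3, ?_⟩
    rw [← hpc]
    have : dd i (s - s₁) 0 = dd i s 0 - dd i s₁ 0 := dd_sub i s s₁ 0
    rw [this, h1 0, sub_zero]
  · rintro ⟨s, hs, hpp, hpc⟩
    refine ⟨s - s₁, ⟨s, hs, rfl⟩, Pol_sub hpp h2, ?_⟩
    have : dd i (s - s₁) 0 = dd i s 0 - dd i s₁ 0 := dd_sub i s s₁ 0
    rw [this, h1 0, sub_zero, hpc]

theorem tops_traB_eq {B : Fam A N} {s₁ : ℤ → A} {e : ℕ} (hs₁ : s₁ ∈ B.support)
    (he : Pol (e + 1) s₁) (hmin : ∀ s ∈ B.support, ¬ Pol e s) :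
    (tops e (traB s₁ B).support).card < (tops e B.support).card := by
  classical
  have hne : ∀ s ∈ B.support, Pol (e + 1) s → dd e s 0 ≠ 0 := by
    intro s hs hp h0
    apply hmin s hs
    intro t
    rw [dd_const_of_Pol hp t 0, h0]
  set c₁ := dd e s₁ 0 with hc₁
  have hc₁T : c₁ ∈ tops e B.support := mem_tops.mpr ⟨hne s₁ hs₁ he, s₁, hs₁, he, rfl⟩
  have hsub : tops e (traB s₁ B).support ⊆ ((tops e B.support).erase c₁).image fun c => c - c₁ := by
    intro c hc
    rw [mem_tops, traB_support] at hc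
    obtain ⟨hc0, p, hp, hpp, hpc⟩ := hc
    rw [Finset.mem_image] at hp
    obtain ⟨s, hs, rfl⟩ := hp
    have h3 : Pol (e + 1) s := by
      have := Pol_add hpp he
      have e : (fun t => (s - s₁) t + s₁ t) = s := by
        funext t
        simp
      rwa [e] at this
    have h4 : dd e (s - s₁) 0 = dd e s 0 - c₁ := dd_sub e s s₁ 0
    rw [h4] at hpc
    rw [Finset.mem_image]
    refine ⟨dd e s 0, Finset.mem_erase.mpr ⟨?_, mem_tops.mpr ⟨hne s hs h3, s, hs, h3, rfl⟩⟩, hpc⟩
    intro heq
    rw [heq, sub_self] at hpc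
    exact hc0 hpc.symm
  exact ((Finset.card_le_card hsub).trans Finset.card_image_le).trans_lt
    (Finset.card_erase_lt_of_mem hc₁T)

/-- the weight -/
def wt (D : ℕ) (S : Finset (ℤ → A)) : Fin D → ℕ := fun i => (tops (i + 1) S).card

variable (Φ)

/-- uniform power saving bounds for the zeros of a class of functions -/
def Bnd (P : Fam A N → Prop) : Prop :=
  ∃ C δ : ℝ, 0 < C ∧ 0 < δ ∧ δ ≤ 1 ∧ ∀ B, P B → ∀ L : ℕ, 1 ≤ L → ∀ Z : Finset ℕ,
    (∀ t ∈ Z, t < L ∧ ev Φ B (t : ℤ) = 0) → (Z.card : ℝ) ≤ C * (L : ℝ) ^ (1 - δ)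

variable {Φ}

theorem rpow_le_of_le {L : ℕ} (hL : 1 ≤ L) {δ δ' : ℝ} (h : δ' ≤ δ) :
    (L : ℝ) ^ (1 - δ) ≤ (L : ℝ) ^ (1 - δ') :=
  Real.rpow_le_rpow_of_exponent_le (by exact_mod_cast hL) (by linarith)

theorem Bnd_mono {P Q : Fam A N → Prop} (h : Bnd Φ P) (hPQ : ∀ B, Q B → P B) : Bnd Φ Q := by
  obtain ⟨C, δ, hC, hδ, hδ1, h⟩ := h
  exact ⟨C, δ, hC, hδ, hδ1, fun B hB => h B (hPQ B hB)⟩

theorem Bnd_false {P : Fam A N → Prop} (h : ∀ B, ¬ P B) : Bnd Φ P :=
  ⟨1, 1, one_pos, one_pos, le_rfl, fun B hB => absurd hB (h B)⟩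

theorem Bnd_or {P Q : Fam A N → Prop} (hP : Bnd Φ P) (hQ : Bnd Φ Q) :
    Bnd Φ (fun B => P B ∨ Q B) := by
  obtain ⟨C, δ, hC, hδ, hδ1, h⟩ := hP
  obtain ⟨C', δ', hC', hδ', hδ1', h'⟩ := hQ
  refine ⟨C + C', min δ δ', by positivity, lt_min hδ hδ', (min_le_left _ _).trans hδ1, ?_⟩
  intro B hB L hL Z hZ
  have h1 := rpow_le_of_le hL (min_le_left δ δ')
  have h2 := rpow_le_of_le hL (min_le_right δ δ')
  have h3 : (0 : ℝ) ≤ (L : ℝ) ^ (1 - min δ δ') := by positivity
  rcases hB with hB | hB
  · refine (h B hB L hL Z hZ).trans ?_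
    nlinarith [mul_le_mul_of_nonneg_left h1 hC.le]
  · refine (h' B hB L hL Z hZ).trans ?_
    nlinarith [mul_le_mul_of_nonneg_left h2 hC'.le]

theorem Bnd_finset {ι : Type*} (I : Finset ι) (P : ι → Fam A N → Prop)
    (h : ∀ i ∈ I, Bnd Φ (P i)) : Bnd Φ (fun B => ∃ i ∈ I, P i B) := by
  classical
  induction I using Finset.induction_on with
  | empty =>
    apply Bnd_false
    rintro B ⟨i, hi, _⟩
    exact absurd hi (Finset.notMem_empty i)
  | insert a I ha ih =>
    have h1 := Bnd_or (h a (Finset.mem_insert_self a I))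
      (ih fun i hi => h i (Finset.mem_insert_of_mem hi))
    apply Bnd_mono h1
    rintro B ⟨i, hi, hB⟩
    rcases Finset.mem_insert.mp hi with rfl | hi
    · exact Or.inl hB
    · exact Or.inr ⟨i, hi, hB⟩

/-- the differencing step -/
theorem diff_step {P Q : Fam A N → Prop} (hQ : Bnd Φ Q) (K : ℕ)
    (h : ∀ B, P B → ∀ L : ℕ, ∃ E : Finset ℕ, E.card ≤ K ∧
      ∀ h ∈ Finset.Ico 1 L, h ∉ E → Q (difB Φ (h : ℤ) B)) : Bnd Φ P := by
  classical
  obtain ⟨C, δ, hC, hδ, hδ1, hQ⟩ := hQ
  refine ⟨1 + 2 * K + 2 * C, δ / 2, by positivity, by positivity, by linarith, ?_⟩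
  intro B hB L hL Z hZ
  obtain ⟨E, hE, hEQ⟩ := h B hB L
  have hL0 : (0 : ℝ) < L := by exact_mod_cast hL
  have hL1 : (1 : ℝ) ≤ L := by exact_mod_cast hL
  have hZL : Z.card ≤ L := by
    have : Z ⊆ Finset.range L := fun t ht => Finset.mem_range.mpr (hZ t ht).1
    simpa using Finset.card_le_card this
  have h1 := card_sq_le Z fun t ht => (hZ t ht).1
  have h2 : ∀ h ∈ Finset.Ico 1 L, ((Z.filter fun t => t + h ∈ Z).card : ℝ) ≤
      (if h ∈ E then (L : ℝ) else 0) + C * (L : ℝ) ^ (1 - δ) := by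
    intro h hh
    have hpos : 0 ≤ C * (L : ℝ) ^ (1 - δ) := by positivity
    by_cases hhE : h ∈ E
    · rw [if_pos hhE]
      have : ((Z.filter fun t => t + h ∈ Z).card : ℝ) ≤ L := by
        exact_mod_cast (Finset.card_filter_le _ _).trans hZL
      linarith
    · rw [if_neg hhE, zero_add]
      apply hQ _ (hEQ h hh hhE) L hL
      intro t ht
      rw [Finset.mem_filter] at ht
      refine ⟨(hZ t ht.1).1, ?_⟩
      rw [ev_difB, (hZ t ht.1).2]
      have := (hZ _ ht.2).2
      push_cast at this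
      rw [this, sub_zero]
  have h3 : (∑ h ∈ Finset.Ico 1 L, ((Z.filter fun t => t + h ∈ Z).card : ℝ)) ≤
      K * L + L * (C * (L : ℝ) ^ (1 - δ)) := by
    refine (Finset.sum_le_sum h2).trans ?_
    rw [Finset.sum_add_distrib, Finset.sum_ite_mem, Finset.sum_const, Finset.sum_const,
      nsmul_eq_mul, nsmul_eq_mul, Nat.card_Ico]
    apply add_le_add
    · apply mul_le_mul_of_nonneg_right _ hL0.le
      exact_mod_cast (Finset.card_le_card Finset.inter_subset_right).trans hE
    · apply mul_le_mul_of_nonneg_right _ (by positivity)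
      exact_mod_cast Nat.sub_le _ _
  have h4 : ((Z.card : ℝ)) ^ 2 ≤ Z.card + 2 * (K * L + L * (C * (L : ℝ) ^ (1 - δ))) := by
    have h5 : ((Z.card : ℝ)) ^ 2 ≤
        Z.card + 2 * ∑ h ∈ Finset.Ico 1 L, ((Z.filter fun t => t + h ∈ Z).card : ℝ) := by
      exact_mod_cast h1
    linarith
  have hZL' : (Z.card : ℝ) ≤ L := by exact_mod_cast hZL
  set X : ℝ := (L : ℝ) ^ (1 - δ / 2) with hX
  have hX0 : 0 < X := Real.rpow_pos_of_pos hL0 _
  have hXX : X * X = L * (L : ℝ) ^ (1 - δ) := by
    rw [hX, ← Real.rpow_add hL0]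
    conv_rhs => rw [← Real.rpow_one_add' hL0.le (by linarith)]
    congr 1
    ring
  have hXL : (L : ℝ) ≤ X * X := by
    rw [hXX]
    have : (1 : ℝ) ≤ (L : ℝ) ^ (1 - δ) := Real.one_le_rpow hL1 (by linarith)
    nlinarith
  have h6 : ((Z.card : ℝ)) ^ 2 ≤ (1 + 2 * K + 2 * C) * (X * X) := by
    have h7 : L * (C * (L : ℝ) ^ (1 - δ)) = C * (X * X) := by
      rw [hXX]
      ring
    rw [h7] at h4
    have hK : (0 : ℝ) ≤ K := Nat.cast_nonneg K
    nlinarith [mul_le_mul_of_nonneg_left hXL hK]
  have hM : (1 : ℝ) ≤ 1 + 2 * K + 2 * C := by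
    have hK : (0 : ℝ) ≤ K := Nat.cast_nonneg K
    linarith
  have h8 : (1 + 2 * K + 2 * C) * (X * X) ≤ ((1 + 2 * K + 2 * C) * X) ^ 2 := by
    have : (0 : ℝ) ≤ X * X := by positivity
    nlinarith [mul_le_mul_of_nonneg_right hM (by positivity : (0 : ℝ) ≤ (1 + 2 * K + 2 * C) * (X * X))]
  exact (pow_le_pow_iff_left₀ (Nat.cast_nonneg _) (by positivity) two_ne_zero).mp (h6.trans h8)

/-- **Zeros of exponential polynomials with polynomial exponents.** -/
theorem pet (hfr : Free Φ) (htf : ∀ (n : ℤ) (a : A), n • a = 0 → n = 0 ∨ a = 0) (D β : ℕ)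
    (hβ : β = 1 ∨ ∀ (n : ℤ) (x : N), n • x = 0 → n = 0 ∨ x = 0) (w : Fin D → ℕ) :
    ∀ b, ∀ J : ℕ, Bnd Φ (fun B : Fam A N => B ≠ 0 ∧ Gd D β B ∧ B.support.card ≤ J ∧
      wt D B.support = w ∧ Pol b (B 0)) := by
  classical
  have hwf : WellFounded (Pi.Lex (ι := Fin D) (β := fun _ => ℕ) (· > ·) (fun {_} => (· < ·))) :=
    Pi.Lex.wellFounded _ fun _ => wellFounded_lt
  induction w using hwf.induction with
  | h w ih =>
    -- translation step
    have htra : ∀ J : ℕ, Bnd Φ (fun B : Fam A N => B ≠ 0 ∧ Gd D β B ∧ B.support.card ≤ J ∧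
        wt D B.support = w ∧ Pol 0 (B 0)) := by
      intro J
      let I : Finset (Fin D → ℕ) := (Fintype.piFinset fun _ => Finset.range (J + 1)).filter
        fun w' => Pi.Lex (ι := Fin D) (β := fun _ => ℕ) (· > ·) (fun {_} => (· < ·)) w' w
      have hI := Bnd_finset (Φ := Φ) I (fun w' (B : Fam A N) => B ≠ 0 ∧ Gd D β B ∧
        B.support.card ≤ J ∧ wt D B.support = w' ∧ Pol β (B 0)) (by
          intro w' hw'
          exact ih w' (Finset.mem_filter.mp hw').2 β J)
      obtain ⟨C, δ, hC, hδ, hδ1, hI⟩ := hI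
      refine ⟨C, δ, hC, hδ, hδ1, ?_⟩
      rintro B ⟨hB0, hG, hJ, hw, hb⟩ L hL Z hZ
      -- the minimal degree
      have h0 : (0 : ℤ → A) ∉ B.support := by
        rw [Finsupp.notMem_support_iff]
        exact funext hb
      obtain ⟨s₀, hs₀⟩ := Finsupp.support_nonempty_iff.mpr hB0
      have hex : ∃ i, ∃ s ∈ B.support, Pol (i + 1) s := ⟨D, s₀, hs₀, (hG s₀ hs₀).2.1⟩
      set e := Nat.find hex with he
      obtain ⟨s₁, hs₁, hs₁e⟩ : ∃ s ∈ B.support, Pol (e + 1) s := Nat.find_spec hex
      have heD : e ≤ D := Nat.find_min' hex ⟨s₀, hs₀, (hG s₀ hs₀).2.1⟩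
      have he1 : 1 ≤ e := by
        by_contra hcon
        have he0 : e = 0 := by omega
        rw [he0, zero_add] at hs₁e
        apply h0
        have : s₁ = 0 := by
          funext t
          rw [Pol_one_iff.mp hs₁e t, (hG s₁ hs₁).1]
          rfl
        rwa [this] at hs₁
      have hmin : ∀ s ∈ B.support, ¬ Pol e s := by
        intro s hs hp
        have h1 := Nat.find_min hex (m := e - 1) (by omega)
        apply h1
        refine ⟨s, hs, ?_⟩
        rwa [Nat.sub_add_cancel he1]
      have hcard : (traB s₁ B).support.card ≤ J := by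
        rw [traB_support]
        exact Finset.card_image_le.trans hJ
      apply hI (traB s₁ B) _ L hL Z
      · intro t ht
        refine ⟨(hZ t ht).1, ?_⟩
        rw [ev_traB, (hZ t ht).2, map_zero]
      · refine ⟨wt D (traB s₁ B).support, ?_, ?_, Gd_traB hG hs₁, hcard, rfl, ?_⟩
        · rw [Finset.mem_filter, Fintype.mem_piFinset]
          refine ⟨fun i => ?_, ?_⟩
          · rw [Finset.mem_range, Nat.lt_succ_iff]
            exact tops_card.trans hcard
          · refine ⟨⟨e - 1, by omega⟩, ?_, ?_⟩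
            · intro j hj
              have hj' : e < (j : ℕ) + 1 := by
                have h2 : (e - 1 : ℕ) < (j : ℕ) := hj
                omega
              show (tops ((j : ℕ) + 1) _).card = w j
              rw [tops_traB_high hs₁e hj', ← hw]
              rfl
            · show (tops (e - 1 + 1) _).card < w _
              rw [← hw]
              show _ < (tops (e - 1 + 1) _).card
              rw [Nat.sub_add_cancel he1]
              exact tops_traB_eq hs₁ hs₁e hmin
        · intro hz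
          have h2 := traB_support s₁ B
          rw [hz, Finsupp.support_zero] at h2
          have h3 := Finset.mem_image_of_mem (fun s => s - s₁) hs₁
          rw [← h2] at h3
          exact absurd h3 (Finset.notMem_empty _)
        · have h2 := traB_at s₁ B s₁
          rw [sub_self] at h2
          rw [h2]
          exact (hG s₁ hs₁).2.2
    intro b
    induction b with
    | zero => exact htra
    | succ b ihb =>
      intro J
      have h1 := ihb J
      have h2 := ihb (2 * J)
      have hst : Bnd Φ (fun B : Fam A N => B ≠ 0 ∧ Gd D β B ∧ B.support.card ≤ J ∧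
          wt D B.support = w ∧ Pol (b + 1) (B 0) ∧
          ((∃ p ∈ B.support, p ≠ 0) ∨ ¬ Pol 1 (B 0))) := by
        apply diff_step h2 (J ^ 2)
        rintro B ⟨hB0, hG, hJ, hw, hb, hor⟩ L
        refine ⟨(Finset.Ico 1 L).filter fun h : ℕ => bad B.support (h : ℤ), ?_, ?_⟩
        · exact (bad_card htf (fun p hp => ⟨(hG p hp).1, (hG p hp).2.1⟩) L).trans
            (Nat.pow_le_pow_left hJ 2)
        · intro h hh hhE
          have hh0 : (h : ℤ) ≠ 0 := by
            have := (Finset.mem_Ico.mp hh).1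
            omega
          have hnb : ¬ bad B.support (h : ℤ) := fun hbd =>
            hhE (Finset.mem_filter.mpr ⟨hh, hbd⟩)
          have hz : ∀ t, (difB Φ (h : ℤ) B) 0 t = B 0 (t + h) - B 0 t := by
            intro t
            rw [difB, Finsupp.sub_apply, shB_zero_type hG, Pi.sub_apply]
          refine ⟨?_, Gd_difB hG _, ?_, ?_, ?_⟩
          · rcases hor with ⟨p, hp, hp0⟩ | hor
            · have := difB_ne (Φ := Φ) hfr htf hG hh0 hnb hp hp0
              intro hz0
              rw [hz0, Finsupp.support_zero] at this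
              exact absurd this (Finset.notMem_empty _)
            · intro hz0
              have hN : ∀ (n : ℤ) (x : N), n • x = 0 → n = 0 ∨ x = 0 := by
                rcases hβ with hβ | hβ
                · exfalso
                  apply hor
                  by_cases h0 : (0 : ℤ → A) ∈ B.support
                  · rw [← hβ]
                    exact (hG 0 h0).2.2
                  · rw [Finsupp.notMem_support_iff.mp h0]
                    exact Pol_zero_fun 1
                · exact hβ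
              apply diff_ne hN hb hor hh0
              intro t
              rw [← hz, hz0]
              rfl
          · refine (Finset.card_le_card difB_support).trans ((Finset.card_union_le _ _).trans ?_)
            have := Finset.card_image_le (s := B.support) (f := tau (h : ℤ))
            omega
          · rw [← hw]
            funext i
            unfold wt
            rw [tops_difB hfr htf hG hh0 hnb (by omega)]
          · have e : (difB Φ (h : ℤ) B) 0 = fun t => B 0 (t + h) - B 0 t := funext hz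
            rw [e]
            exact Pol_diff hb h
      have hlast : Bnd Φ (fun B : Fam A N => B ≠ 0 ∧ (∀ p ∈ B.support, p = 0) ∧ Pol 1 (B 0)) := by
        refine ⟨1, 1, one_pos, one_pos, le_rfl, ?_⟩
        rintro B ⟨hB0, hS, hc⟩ L hL Z hZ
        have hZe : Z = ∅ := by
          by_contra hne
          obtain ⟨t, ht⟩ := Finset.nonempty_iff_ne_empty.mpr hne
          have h3 := (hZ t ht).2
          have h4 : ev Φ B (t : ℤ) = B 0 t := by
            have h5 : B = Finsupp.single 0 (B 0) := by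
              ext1 p
              by_cases hp : p = 0
              · rw [hp, Finsupp.single_eq_same]
              · rw [Finsupp.single_eq_of_ne hp]
                by_contra h6
                exact hp (hS p (Finsupp.mem_support_iff.mpr h6))
            conv_lhs => rw [h5]
            rw [ev_single, Pi.zero_apply, Φ.zero]
          rw [h4] at h3
          apply hB0
          ext1 p
          by_cases hp : p ∈ B.support
          · rw [hS p hp]
            funext s
            rw [Pol_one_iff.mp hc s, ← Pol_one_iff.mp hc t, h3]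
            rfl
          · exact Finsupp.notMem_support_iff.mp hp
        rw [hZe, Finset.card_empty, Nat.cast_zero]
        positivity
      apply Bnd_mono (Bnd_or h1 (Bnd_or hst hlast))
      rintro B ⟨hB0, hG, hJ, hw, hb⟩
      by_cases hor : (∃ p ∈ B.support, p ≠ 0) ∨ ¬ Pol 1 (B 0)
      · exact Or.inr (Or.inl ⟨hB0, hG, hJ, hw, hb, hor⟩)
      · push Not at hor
        exact Or.inr (Or.inr ⟨hB0, hor.1, hor.2⟩)

end

end Pool.Agent.TH635.AA
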