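import Mathlib

/-!
# Polynomial sequences in abelian groups
-/

set_option autoImplicit false

open fwdDiff

namespace Pool.Agent.TH635.AA

variable {A N N' : Type*} [AddCommGroup A] [AddCommGroup N] [AddCommGroup N']

/-- iterated differences -/
def dd (n : ℕ) (f : ℤ → N) : ℤ → N := (fwdDiff (1 : ℤ))^[n] f

/-- sequences killed by `n` differences -/
def Pol (n : ℕ) (f : ℤ → N) : Prop := ∀ t, dd n f t = 0

theorem dd_zero (f : ℤ → N) : dd 0 f = f := rfl

theorem dd_succ (n : ℕ) (f : ℤ → N) : dd (n + 1) f = dd n (fun t => f (t + 1) - f t) := rfl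

theorem dd_succ' (n : ℕ) (f : ℤ → N) (t : ℤ) : dd (n + 1) f t = dd n f (t + 1) - dd n f t := by
  unfold dd
  rw [Function.iterate_succ_apply']
  rfl

theorem dd_add (n : ℕ) (f g : ℤ → N) (t : ℤ) :
    dd n (fun t => f t + g t) t = dd n f t + dd n g t := by
  induction n generalizing f g with
  | zero => rfl
  | succ n ih =>
    rw [dd_succ, dd_succ, dd_succ, ← ih]
    congr 1
    funext s
    abel

theorem dd_hom (n : ℕ) (φ : N →+ N') (f : ℤ → N) (t : ℤ) :
    dd n (fun t => φ (f t)) t = φ (dd n f t) := by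
  induction n generalizing f with
  | zero => rfl
  | succ n ih =>
    rw [dd_succ, dd_succ, ← ih]
    congr 1
    funext s
    rw [map_sub]

theorem dd_neg (n : ℕ) (f : ℤ → N) (t : ℤ) : dd n (fun t => -f t) t = -dd n f t :=
  dd_hom n (negAddMonoidHom : N →+ N) f t

theorem dd_sub (n : ℕ) (f g : ℤ → N) (t : ℤ) :
    dd n (fun t => f t - g t) t = dd n f t - dd n g t := by
  have h := dd_add n f (fun t => -g t) t
  rw [dd_neg] at h
  simp only [sub_eq_add_neg]
  exact h

theorem dd_shift (n : ℕ) (f : ℤ → N) (h t : ℤ) :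
    dd n (fun t => f (t + h)) t = dd n f (t + h) := by
  induction n generalizing f with
  | zero => rfl
  | succ n ih =>
    rw [dd_succ, dd_succ, ← ih]
    congr 1
    funext s
    rw [add_right_comm]

theorem dd_const {n : ℕ} (hn : 1 ≤ n) (c : N) (t : ℤ) : dd n (fun _ => c) t = 0 := by
  obtain ⟨m, rfl⟩ : ∃ m, n = m + 1 := ⟨n - 1, by omega⟩
  clear hn
  rw [dd_succ]
  simp only [sub_self]
  clear c
  induction m with
  | zero => rfl
  | succ m ih =>
    rw [dd_succ]
    simp only [sub_self]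
    exact ih

theorem dd_zero_fun (n : ℕ) (t : ℤ) : dd n (fun _ => (0 : N)) t = 0 := by
  rcases Nat.eq_zero_or_pos n with h | h
  · subst h
    rfl
  · exact dd_const h 0 t

theorem Pol_zero {f : ℤ → N} : Pol 0 f ↔ ∀ t, f t = 0 := Iff.rfl

theorem Pol_one_iff {f : ℤ → N} : Pol 1 f ↔ ∀ t, f t = f 0 := by
  constructor
  · intro h
    have h1 : ∀ t, f (t + 1) = f t := fun t => sub_eq_zero.mp (h t)
    intro t
    induction t using Int.induction_on with
    | zero => rfl
    | succ i ih => rw [h1, ih]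
    | pred i ih =>
      have := h1 (-(i : ℤ) - 1)
      rw [sub_add_cancel] at this
      rw [← this, ih]
  · intro h t
    show f (t + 1) - f t = 0
    rw [h, h t, sub_self]

theorem Pol_succ {n : ℕ} {f : ℤ → N} (h : Pol n f) : Pol (n + 1) f := by
  intro t
  rw [dd_succ', h, h, sub_self]

theorem Pol_mono {n m : ℕ} (hnm : n ≤ m) {f : ℤ → N} (h : Pol n f) : Pol m f := by
  induction m, hnm using Nat.le_induction with
  | base => exact h
  | succ m _ ih => exact Pol_succ ih

theorem Pol_add {n : ℕ} {f g : ℤ → N} (hf : Pol n f) (hg : Pol n g) :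
    Pol n (fun t => f t + g t) := by
  intro t
  rw [dd_add, hf, hg, add_zero]

theorem Pol_sub {n : ℕ} {f g : ℤ → N} (hf : Pol n f) (hg : Pol n g) :
    Pol n (fun t => f t - g t) := by
  intro t
  rw [dd_sub, hf, hg, sub_zero]

theorem Pol_neg {n : ℕ} {f : ℤ → N} (hf : Pol n f) : Pol n (fun t => -f t) := by
  intro t
  rw [dd_neg, hf, neg_zero]

theorem Pol_hom {n : ℕ} (φ : N →+ N') {f : ℤ → N} (hf : Pol n f) :
    Pol n (fun t => φ (f t)) := by
  intro t
  rw [dd_hom, hf, map_zero]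

theorem Pol_shift {n : ℕ} {f : ℤ → N} (hf : Pol n f) (h : ℤ) : Pol n (fun t => f (t + h)) := by
  intro t
  rw [dd_shift]
  exact hf _

theorem Pol_const {n : ℕ} (hn : 1 ≤ n) (c : N) : Pol n (fun _ => c) := dd_const hn c

theorem Pol_zero_fun (n : ℕ) : Pol n (fun _ => (0 : N)) := dd_zero_fun n

theorem dd_const_of_Pol {n : ℕ} {f : ℤ → N} (hf : Pol (n + 1) f) (t s : ℤ) :
    dd n f t = dd n f s := by
  have h : Pol 1 (dd n f) := by
    intro t
    have := hf t
    rw [dd_succ'] at this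
    exact this
  rw [Pol_one_iff.mp h t, Pol_one_iff.mp h s]

theorem Pol_diff {n : ℕ} {f : ℤ → N} (hf : Pol (n + 1) f) (h : ℤ) :
    Pol n (fun t => f (t + h) - f t) := by
  intro t
  rw [dd_sub n (fun t => f (t + h)) f, dd_shift, dd_const_of_Pol hf (t + h) t, sub_self]

/-- the exact degree -/
theorem exact_deg {n : ℕ} {f : ℤ → N} (hf : Pol n f) (h0 : ¬ ∀ t, f t = 0) :
    ∃ j < n, Pol (j + 1) f ∧ ∀ t, dd j f t ≠ 0 := by
  classical
  have hex : ∃ m, Pol m f := ⟨n, hf⟩
  set m := Nat.find hex with hm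
  have h1 : Pol m f := Nat.find_spec hex
  have hmn : m ≤ n := Nat.find_min' hex hf
  have hm0 : m ≠ 0 := by
    intro h
    rw [h] at h1
    exact h0 h1
  refine ⟨m - 1, by omega, ?_, ?_⟩
  · rw [Nat.sub_add_cancel (by omega)]
    exact h1
  · intro t ht
    have h2 : ¬ Pol (m - 1) f := Nat.find_min hex (by omega)
    apply h2
    intro s
    rw [dd_const_of_Pol (by rw [Nat.sub_add_cancel (by omega)]; exact h1) s t, ht]

/-- arithmetic progressions -/
theorem arith {g : ℤ → N} {c : N} (h : ∀ t, g (t + 1) - g t = c) (t : ℤ) : g t = g 0 + t • c := by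
  have h1 : Pol 1 (fun t => g t - t • c) := by
    intro t
    show (g (t + 1) - (t + 1) • c) - (g t - t • c) = 0
    rw [add_smul, one_smul, ← h t]
    abel
  have h2 := Pol_one_iff.mp h1 t
  simp only [zero_smul, sub_zero] at h2
  rw [← h2]
  abel

/-- A polynomial sequence in a torsion-free group with a constant difference is affine. -/
theorem aff_of_diff (htf : ∀ (n : ℤ) (a : A), n • a = 0 → n = 0 ∨ a = 0) {n : ℕ} {p : ℤ → A}
    (hp : Pol n p) {h : ℤ} (hh : h ≠ 0) {k : A} (hk : ∀ t, p (t + h) - p t = k) : Pol 2 p := by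
  by_cases h0 : ∀ t, p t = 0
  · exact Pol_mono (by omega) (Pol_zero.mpr h0)
  obtain ⟨j, hj, hj1, hj2⟩ := exact_deg hp h0
  rcases Nat.lt_or_ge j 2 with hlt | hge
  · exact Pol_mono (by omega) hj1
  obtain ⟨i, rfl⟩ : ∃ i, j = i + 1 := ⟨j - 1, by omega⟩
  have h1 : ∀ t, dd i p (t + h) - dd i p t = 0 := by
    intro t
    rw [← dd_shift, ← dd_sub i (fun t => p (t + h)) p]
    have e : (fun t => p (t + h) - p t) = fun _ => k := funext hk
    rw [e, dd_const (by omega)]
  have h2 : ∀ t, dd i p (t + 1) - dd i p t = dd (i + 1) p 0 := by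
    intro t
    rw [← dd_succ', dd_const_of_Pol hj1 t 0]
  have h3 := h1 0
  rw [arith h2 (0 + h), zero_add, add_sub_cancel_left] at h3
  rcases htf _ _ h3 with h4 | h4
  · exact absurd h4 hh
  · exact absurd h4 (hj2 0)

/-- A nonconstant polynomial sequence in a torsion-free group is not periodic. -/
theorem diff_ne (htf : ∀ (n : ℤ) (a : N), n • a = 0 → n = 0 ∨ a = 0) {n : ℕ} {f : ℤ → N}
    (hf : Pol n f) (h1 : ¬ Pol 1 f) {h : ℤ} (hh : h ≠ 0) :
    ¬ ∀ t, f (t + h) - f t = 0 := by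
  intro hk
  have h0 : ¬ ∀ t, f t = 0 := fun h => h1 (Pol_succ (Pol_zero.mpr h))
  obtain ⟨j, hj, hj1, hj2⟩ := exact_deg hf h0
  have hj0 : j ≠ 0 := by
    intro h
    subst h
    exact h1 hj1
  obtain ⟨i, rfl⟩ : ∃ i, j = i + 1 := ⟨j - 1, by omega⟩
  have h1 : ∀ t, dd i f (t + h) - dd i f t = 0 := by
    intro t
    rw [← dd_shift, ← dd_sub i (fun t => f (t + h)) f]
    have e : (fun t => f (t + h) - f t) = fun _ => 0 := funext hk
    rw [e, dd_zero_fun]
  have h2 : ∀ t, dd i f (t + 1) - dd i f t = dd (i + 1) f 0 := by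
    intro t
    rw [← dd_succ', dd_const_of_Pol hj1 t 0]
  have h3 := h1 0
  rw [arith h2 (0 + h), zero_add, add_sub_cancel_left] at h3
  rcases htf _ _ h3 with h4 | h4
  · exact absurd h4 hh
  · exact absurd h4 (hj2 0)

/-- An action of the abelian group `A` on the abelian group `N` by automorphisms. -/
structure Act (A N : Type*) [AddCommGroup A] [AddCommGroup N] where
  e : A → N →+ N
  zero : ∀ x, e 0 x = x
  add : ∀ a b x, e (a + b) x = e a (e b x)

/-- no nonzero element of `A` fixes a nonzero element of `N` -/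
def Free {A N : Type*} [AddCommGroup A] [AddCommGroup N] (Φ : Act A N) : Prop :=
  ∀ a x, a ≠ 0 → Φ.e a x = x → x = 0

namespace Act

variable (Φ : Act A N)

theorem neg_e (a : A) (x : N) : Φ.e (-a) (Φ.e a x) = x := by
  rw [← Φ.add, neg_add_cancel, Φ.zero]

theorem e_neg (a : A) (x : N) : Φ.e a (Φ.e (-a) x) = x := by
  rw [← Φ.add, add_neg_cancel, Φ.zero]

theorem e_eq_zero {a : A} {x : N} (h : Φ.e a x = 0) : x = 0 := by
  have := Φ.neg_e a x
  rw [h, map_zero] at this
  exact this.symm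

/-- exponentials and polynomials are independent -/
theorem mix (hfr : Free Φ) {a : A} (ha : a ≠ 0) {n : ℕ} {f : ℤ → N} (hf : Pol n f) {h : ℤ}
    (hk : ∀ t, Φ.e a (f (t + h)) = f t) : ∀ t, f t = 0 := by
  by_contra h0
  obtain ⟨j, hj, hj1, hj2⟩ := exact_deg hf h0
  have h1 : Φ.e a (dd j f (0 + h)) = dd j f 0 := by
    rw [← dd_shift, ← dd_hom]
    congr 1
    funext t
    exact hk t
  rw [dd_const_of_Pol hj1 (0 + h) 0] at h1
  exact hj2 0 (hfr a _ ha h1)

end Act

end Pool.Agent.TH635.AA
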