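import Pool.Agent.TH635.AA.Pet

/-!
# Uniform bounds for the values of exponential polynomials
-/

set_option autoImplicit false

namespace Pool.Agent.TH635.AA

open Finset

noncomputable section

variable {A N : Type*} [AddCommGroup A] [AddCommGroup N] {Φ : Act A N}

theorem unif (hfr : Free Φ) (htf : ∀ (n : ℤ) (a : A), n • a = 0 → n = 0 ∨ a = 0) (D β : ℕ)
    (hβ : β = 1 ∨ ∀ (n : ℤ) (x : N), n • x = 0 → n = 0 ∨ x = 0) (J : ℕ) :
    Bnd Φ (fun B : Fam A N => B ≠ 0 ∧ Gd D β B ∧ B.support.card ≤ J) := by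
  classical
  have h := Bnd_finset (Φ := Φ) (Fintype.piFinset fun _ : Fin D => Finset.range (J + 1))
    (fun w (B : Fam A N) => B ≠ 0 ∧ Gd D β B ∧ B.support.card ≤ J ∧
      wt D B.support = w ∧ Pol β (B 0)) (fun w _ => pet hfr htf D β hβ w β J)
  apply Bnd_mono h
  rintro B ⟨hB0, hG, hJ⟩
  refine ⟨wt D B.support, ?_, hB0, hG, hJ, rfl, ?_⟩
  · rw [Fintype.mem_piFinset]
    intro i
    rw [Finset.mem_range, Nat.lt_succ_iff]
    exact tops_card.trans hJ
  · by_cases h0 : (0 : ℤ → A) ∈ B.support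
    · exact (hG 0 h0).2.2
    · rw [Finsupp.notMem_support_iff.mp h0]
      exact Pol_zero_fun β

theorem Gd_zero (D β : ℕ) : Gd D β (0 : Fam A N) := by
  intro p hp
  rw [Finsupp.support_zero] at hp
  exact absurd hp (Finset.notMem_empty _)

theorem Gd_Pol {D β : ℕ} {B : Fam A N} (h : Gd D β B) (p : ℤ → A) : Pol β (B p) := by
  by_cases hp : p ∈ B.support
  · exact (h p hp).2.2
  · rw [Finsupp.notMem_support_iff.mp hp]
    exact Pol_zero_fun β

theorem Gd_add {D β : ℕ} {B B' : Fam A N} (h : Gd D β B) (h' : Gd D β B') :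
    Gd D β (B + B') := by
  classical
  intro p hp
  have h1 : p ∈ B.support ∨ p ∈ B'.support := by
    have := Finsupp.support_add hp
    rwa [Finset.mem_union] at this
  have h2 : Pol β ((B + B') p) := Pol_add (Gd_Pol h p) (Gd_Pol h' p)
  rcases h1 with h1 | h1
  · exact ⟨(h p h1).1, (h p h1).2.1, h2⟩
  · exact ⟨(h' p h1).1, (h' p h1).2.1, h2⟩

theorem Gd_single {D β : ℕ} {p : ℤ → A} {b : ℤ → N} (hp0 : p 0 = 0) (hp : Pol (D + 1) p)
    (hb : Pol β b) : Gd D β (Finsupp.single p b : Fam A N) := by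
  classical
  intro q hq
  have h1 := Finsupp.support_single_subset hq
  rw [Finset.mem_singleton] at h1
  subst h1
  refine ⟨hp0, hp, ?_⟩
  rw [Finsupp.single_eq_same]
  exact hb

variable (Φ)

/-- the function of a list of exponents and coefficients -/
def lev (L : List ((ℤ → A) × (ℤ → N))) (t : ℤ) : N :=
  (L.map fun x => Φ.e (x.1 t) (x.2 t)).sum

/-- the normalised family -/
def famL (L : List ((ℤ → A) × (ℤ → N))) : Fam A N :=
  (L.map fun x => (Finsupp.single (fun t => x.1 t - x.1 0) (fun t => Φ.e (x.1 0) (x.2 t)) :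
    Fam A N)).sum

theorem ev_famL (L : List ((ℤ → A) × (ℤ → N))) (t : ℤ) : ev Φ (famL Φ L) t = lev Φ L t := by
  induction L with
  | nil =>
    unfold famL lev
    simp [ev_zero]
  | cons x L ih =>
    unfold famL lev at ih ⊢
    rw [List.map_cons, List.sum_cons, List.map_cons, List.sum_cons, ev_add, ih, ev_single, ← Φ.add,
      sub_add_cancel]

theorem famL_card (L : List ((ℤ → A) × (ℤ → N))) : (famL Φ L).support.card ≤ L.length := by
  classical
  induction L with
  | nil =>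
    unfold famL
    simp
  | cons x L ih =>
    unfold famL at ih ⊢
    rw [List.map_cons, List.sum_cons, List.length_cons]
    refine (Finset.card_le_card Finsupp.support_add).trans ((Finset.card_union_le _ _).trans ?_)
    have h1 : (Finsupp.single (fun t => x.1 t - x.1 0) (fun t => Φ.e (x.1 0) (x.2 t)) :
        Fam A N).support.card ≤ 1 := by
      refine (Finset.card_le_card Finsupp.support_single_subset).trans ?_
      rw [Finset.card_singleton]
    omega

theorem famL_Gd {D β : ℕ} (L : List ((ℤ → A) × (ℤ → N)))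
    (hL : ∀ x ∈ L, Pol (D + 1) x.1 ∧ Pol β x.2) : Gd D β (famL Φ L) := by
  induction L with
  | nil =>
    unfold famL
    exact Gd_zero D β
  | cons x L ih =>
    unfold famL at ih ⊢
    rw [List.map_cons, List.sum_cons]
    obtain ⟨h1, h2⟩ := hL x (List.mem_cons_self)
    refine Gd_add (Gd_single ?_ (Pol_sub h1 (Pol_const (by omega) _)) (Pol_hom (Φ.e (x.1 0)) h2))
      (ih fun y hy => hL y (List.mem_cons_of_mem _ hy))
    simp

variable {Φ}

/-- **The values of exponential polynomials of one variable, uniformly.** -/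
theorem one_var (hfr : Free Φ) (htf : ∀ (n : ℤ) (a : A), n • a = 0 → n = 0 ∨ a = 0) (D : ℕ)
    {β : ℕ} (hβ1 : 1 ≤ β)
    (hβ : β = 1 ∨ ∀ (n : ℤ) (x : N), n • x = 0 → n = 0 ∨ x = 0) (J : ℕ) :
    ∃ C δ : ℝ, 0 < C ∧ 0 < δ ∧ δ ≤ 1 ∧ ∀ L : List ((ℤ → A) × (ℤ → N)), L.length ≤ J →
      (∀ x ∈ L, Pol (D + 1) x.1 ∧ Pol β x.2) → ∀ w : N, (∀ t : ℤ, lev Φ L t = w) ∨
        ∀ M : ℕ, 1 ≤ M → ∀ Z : Finset ℕ, (∀ t ∈ Z, t < M ∧ lev Φ L (t : ℤ) = w) →
          (Z.card : ℝ) ≤ C * (M : ℝ) ^ (1 - δ) := by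
  classical
  obtain ⟨C, δ, hC, hδ, hδ1, h⟩ := unif hfr htf D β hβ (J + 1)
  refine ⟨C, δ, hC, hδ, hδ1, fun L hLJ hL w => ?_⟩
  set B : Fam A N := famL Φ L + Finsupp.single 0 (fun _ => -w) with hB
  have hev : ∀ t, ev Φ B t = lev Φ L t - w := by
    intro t
    rw [hB, ev_add, ev_famL, ev_single, Pi.zero_apply, Φ.zero, sub_eq_add_neg]
  by_cases hB0 : B = 0
  · left
    intro t
    have h1 := hev t
    rw [hB0, ev_zero] at h1
    exact (sub_eq_zero.mp h1.symm)
  · right
    intro M hM Z hZ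
    apply h B ⟨hB0, ?_, ?_⟩ M hM Z
    · intro t ht
      refine ⟨(hZ t ht).1, ?_⟩
      rw [hev, (hZ t ht).2, sub_self]
    · exact Gd_add (famL_Gd Φ L hL) (Gd_single rfl (Pol_zero_fun _) (Pol_const hβ1 _))
    · refine (Finset.card_le_card Finsupp.support_add).trans ((Finset.card_union_le _ _).trans ?_)
      have h1 : (Finsupp.single (0 : ℤ → A) (fun _ => -w) : Fam A N).support.card ≤ 1 := by
        refine (Finset.card_le_card Finsupp.support_single_subset).trans ?_
        rw [Finset.card_singleton]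
      have h2 := famL_card Φ L
      omega

end

end Pool.Agent.TH635.AA
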